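import Pool.Agent.Y702.M.Newf
import Pool.Agent.Y702.P.CP
import Pool.Agent.Y702.P.HASSE
import Pool.Agent.Y702.P.FIVE
import Pool.Agent.Y702.P.LAT
import Pool.Agent.Y702.P.REAL

/-!
All the facts on the modular parametrisation of `X_0(11)`.
-/

set_option autoImplicit false

open UpperHalfPlane MatrixGroups CongruenceSubgroup Filter Topology

namespace Pool.Agent.Y702.M

open Pool.Agent.W97.TW
open Pool.Agent.W97.MT (affCount ap)

/-- the coefficients -/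
theorem cc_eq {l : ℕ} (hl : l.Prime) : cc l = ap E11 l :=
  coef_eq P.CP.s_cp11 P.HS.s_hasse11 P.s_five11 P.s_min11 P.s_lat11 P.s_real11 hl

/-- the period lattice and the values at the rational numbers -/
theorem main : ∃ (L : PeriodPair) (Op Om c : ℝ), 0 < Op ∧ 0 < Om ∧
    L.g₂ = 124 / 3 ∧ L.g₃ = 2501 / 27 ∧
    (∀ w : ℂ, w ∈ L.lattice ↔ ∃ a b : ℤ, 2 ∣ a - b ∧ w = a * Op + b * Om * Complex.I) ∧
    5 * c = 2 * Op ∧
    (∀ z : ℂ, 0 < z.im → F (-1 / (11 * z)) = c - F z) ∧ TH940.Pers f11 (L.lattice : Set ℂ) := by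
  obtain ⟨L, Op, Om, hOp, hOm, g2, g3, hL⟩ := P.s_lat11
  obtain ⟨C, hC⟩ := F_W
  obtain ⟨c, hCc, hc⟩ := c_eq P.CP.s_cp11 L g2 g3 P.s_real11 hOp hOm hL hC
  subst hCc
  exact ⟨L, Op, Om, c, hOp, hOm, g2, g3, hL, hc, hC, pers P.CP.s_cp11 L g2 g3⟩

end Pool.Agent.Y702.M
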