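import Pool.Agent.Y702.M.Hec

/-!
The coefficients of the form on `X_0(11)`.
-/

set_option autoImplicit false

open Filter Topology MeasureTheory Set UpperHalfPlane MatrixGroups CongruenceSubgroup

namespace Pool.Agent.Y702.M

open Pool.Agent.W97.TW
open Pool.Agent.W97.MT (S_QEXP S_ODE S_INJ Rep RepC Q_ne Q_ne_pow num qq qq_ne norm_qq norm_qq_lt
  tt tt_ne tt_pow eta_mul eta_one iI iI_pos iI_eventually QV H_open im_mul G_mul tendsto_qq
  hasDerivAt_qq Qq_analytic QV_zero_of_dvd G_ne z_ne hqe hinj hode exists_qq wA wA_same wA_eq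
  wA_analytic const_of_deriv Qd_diff qParam_one ap affCount hsup)

section formal

variable {K P A W : PowerSeries ℤ} (rK : Rep kf K) (rP : Rep phi P) (rA : Rep Af A) (rW : Rep Wf W)
  (tP : Pool.Agent.W97.MT.Tr P lP)
  (tA : Pool.Agent.W97.MT.Tr A lA) (tW : Pool.Agent.W97.MT.Tr W lW)

include rK rA rW tA tW in
lemma formal_one (hcp : S_CP11) : 25 * W ^ 2 = A ^ 4 - 20 * (PowerSeries.X * A ^ 3) -
    2200 * (PowerSeries.X ^ 2 * A ^ 2) - 37500 * (PowerSeries.X ^ 3 * A) -
    190000 * PowerSeries.X ^ 4 := by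
  have a0 := rep_zero rA
  have w0 := rep_zero rW
  rw [tA 0 (by norm_num)] at a0
  rw [tW 0 (by norm_num)] at w0
  norm_num [lA] at a0
  norm_num [lW] at w0
  rw [num 25, num 20, num 2200, num 37500, num 190000]
  refine ((Rep.C 25).mul (rW.pow 2)).unique ((((((rA.pow 4).sub ((Rep.C 20).mul
    (Rep.X.mul (rA.pow 3)))).sub ((Rep.C 2200).mul ((Rep.X.pow 2).mul (rA.pow 2)))).sub
    ((Rep.C 37500).mul ((Rep.X.pow 3).mul rA))).sub ((Rep.C 190000).mul (Rep.X.pow 4))).congr
    fun q hq => ?_)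
  by_cases h0 : q = 0
  · rw [h0, a0, w0]
    push_cast
    ring
  · obtain ⟨z, hz, rfl⟩ := exists_qq hq h0
    have h1 := sf_q rK hz
    have h2 := vf_q rK rA hz
    have hq := qq_ne z
    have h3 : Af (qq z) = 5 * qq z * sf z := by
      rw [mul_right_comm, h1]; field_simp
    have h4 : Wf (qq z) = 5 * qq z ^ 2 * vf z := by
      rw [mul_right_comm, h2]; field_simp
    have h5 := g1_zero hcp hqe z hz
    unfold g1 at h5
    rw [h3, h4]
    push_cast
    linear_combination (625 * qq z ^ 4) * h5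

include rK rP rA rW tP tA tW in
lemma formal_two (hcp : S_CP11) : 25 * (PowerSeries.X * PowerSeries.derivative ℤ W - 2 * W) =
    P * (2 * A ^ 3 - 30 * (PowerSeries.X * A ^ 2) - 2200 * (PowerSeries.X ^ 2 * A) -
      18750 * PowerSeries.X ^ 3) := by
  have p0 := rep_zero rP
  have a0 := rep_zero rA
  have w0 := rep_zero rW
  rw [tP 0 (by norm_num)] at p0
  rw [tA 0 (by norm_num)] at a0
  rw [tW 0 (by norm_num)] at w0
  norm_num [lP] at p0
  norm_num [lA] at a0
  norm_num [lW] at w0
  rw [num 25, num 2, num 30, num 2200, num 18750]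
  refine ((Rep.C 25).mul (rW.theta.sub ((Rep.C 2).mul rW))).unique ((rP.mul (((((Rep.C 2).mul
    (rA.pow 3)).sub ((Rep.C 30).mul (Rep.X.mul (rA.pow 2)))).sub ((Rep.C 2200).mul
    ((Rep.X.pow 2).mul rA))).sub ((Rep.C 18750).mul (Rep.X.pow 3)))).congr
    fun q hq => ?_)
  by_cases h0 : q = 0
  · rw [h0, a0, w0, p0]
    push_cast
    ring
  · obtain ⟨z, hz, rfl⟩ := exists_qq hq h0
    have h1 := sf_q rK hz
    have h2 := dvf_q rK rA rW hz
    have hq := qq_ne z
    have h3 : Af (qq z) = 5 * qq z * sf z := by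
      rw [mul_right_comm, h1]; field_simp
    have h5 := g2_zero hcp hqe z hz
    unfold g2 at h5
    push_cast
    rw [← h2, h3]
    linear_combination (125 * qq z ^ 3 * phi (qq z)) * h5

include rK rP rA rW tP tA tW in
/-- the coefficient modulo `p` -/
lemma coeff_mod (hcp : S_CP11) (hasse : S_HASSE11)
    (hPW : P * W = PowerSeries.X * PowerSeries.derivative ℤ A - A)
    {p : ℕ} (hp : p.Prime) (hp2 : p ≠ 2) (hp5 : p ≠ 5) :
    ((PowerSeries.coeff (p - 1) P : ℤ) : ZMod p) = (ap E11 p : ZMod p) := by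
  have : Fact p.Prime := ⟨hp⟩
  have h1 := formal_one rK rA rW tA tW hcp
  have h2 := formal_two rK rP rA rW tP tA tW hcp
  set m := PowerSeries.map (Int.castRingHom (ZMod p)) with hm
  have hX : m PowerSeries.X = PowerSeries.X := PowerSeries.map_X _
  have hd : ∀ V : PowerSeries ℤ, m (PowerSeries.derivative ℤ V) =
      PowerSeries.derivative (ZMod p) (m V) := by
    intro V
    ext n
    simp [hm, PowerSeries.coeff_derivative]
  have h3 := congrArg m h1
  have h4 := congrArg m h2
  have h5 := congrArg m hPW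
  simp only [map_sub, map_mul, map_pow, hX, hd, map_ofNat] at h3 h4 h5
  have hcc : ∀ V : PowerSeries ℤ, PowerSeries.constantCoeff (m V) =
      ((PowerSeries.constantCoeff V : ℤ) : ZMod p) := by
    intro V
    rw [← PowerSeries.coeff_zero_eq_constantCoeff_apply, ← PowerSeries.coeff_zero_eq_constantCoeff_apply,
      hm, PowerSeries.coeff_map]
    simp
  have cA : PowerSeries.constantCoeff A = 5 := by
    have := tA 0 (by norm_num)
    simpa [lA] using this
  have cW : PowerSeries.constantCoeff W = -5 := by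
    have := tW 0 (by norm_num)
    simpa [lW] using this
  have cA' : PowerSeries.constantCoeff (m A) = 5 := by rw [hcc, cA]; simp
  have cW' : PowerSeries.constantCoeff (m W) = -5 := by rw [hcc, cW]; simp
  have n2 : (2 : ZMod p) ≠ 0 := by
    intro h
    have : ((2 : ℕ) : ZMod p) = 0 := by exact_mod_cast h
    rw [ZMod.natCast_eq_zero_iff] at this
    exact hp2 ((Nat.prime_dvd_prime_iff_eq hp Nat.prime_two).1 this)
  have n5 : (5 : ZMod p) ≠ 0 := by
    intro h
    have : ((5 : ℕ) : ZMod p) = 0 := by exact_mod_cast h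
    rw [ZMod.natCast_eq_zero_iff] at this
    exact hp5 ((Nat.prime_dvd_prime_iff_eq hp (by norm_num)).1 this)
  have n50 : (50 : ZMod p) ≠ 0 := by
    rw [show (50 : ZMod p) = 2 * 5 ^ 2 by norm_num]
    exact mul_ne_zero n2 (pow_ne_zero 2 n5)
  have n125 : (125 : ZMod p) ≠ 0 := by
    rw [show (125 : ZMod p) = 5 ^ 3 by norm_num]
    exact pow_ne_zero 3 n5
  set α : PowerSeries (ZMod p) := m A with hα
  set ω : PowerSeries (ZMod p) := m W with hω
  set φ : PowerSeries (ZMod p) := m P with hφ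
  set X : PowerSeries (ZMod p) := PowerSeries.X with hXX
  set c : PowerSeries (ZMod p) := PowerSeries.C (50 : ZMod p)⁻¹ with hc
  set d : PowerSeries (ZMod p) := PowerSeries.C (125 : ZMod p)⁻¹ with hdd
  have e50 : 50 * c = 1 := by
    have : (50 : PowerSeries (ZMod p)) = PowerSeries.C 50 := by rw [map_ofNat]
    rw [this, hc, ← map_mul, mul_inv_cancel₀ n50, map_one]
  have e125 : 125 * d = 1 := by
    have : (125 : PowerSeries (ZMod p)) = PowerSeries.C 125 := by rw [map_ofNat]
    rw [this, hdd, ← map_mul, mul_inv_cancel₀ n125, map_one]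
  have u50 : (50 : PowerSeries (ZMod p)) ≠ 0 := by
    intro h
    rw [h, zero_mul] at e50
    exact one_ne_zero e50.symm
  have u5 : (5 : PowerSeries (ZMod p)) ≠ 0 := by
    intro h
    apply u50
    rw [show (50 : PowerSeries (ZMod p)) = 5 * 10 by norm_num, h, zero_mul]
  have u2 : (2 : PowerSeries (ZMod p)) ≠ 0 := by
    intro h
    apply u50
    rw [show (50 : PowerSeries (ZMod p)) = 2 * 25 by norm_num, h, zero_mul]
  set ξ : PowerSeries (ZMod p) := c * (α ^ 2 - 10 * (X * α) - 350 * X ^ 2 - 5 * ω) with hξ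
  set σ : PowerSeries (ZMod p) := d * (5 * (α - 5 * X) * ω - α ^ 3 + 15 * (X * α ^ 2) +
    1100 * (X ^ 2 * α) + 9375 * X ^ 3) with hσ
  have f50 : 50 * ξ = α ^ 2 - 10 * (X * α) - 350 * X ^ 2 - 5 * ω := by
    rw [hξ]
    linear_combination (α ^ 2 - 10 * (X * α) - 350 * X ^ 2 - 5 * ω) * e50
  have f125 : 125 * σ = 5 * (α - 5 * X) * ω - α ^ 3 + 15 * (X * α ^ 2) +
    1100 * (X ^ 2 * α) + 9375 * X ^ 3 := by
    rw [hσ]
    linear_combination (5 * (α - 5 * X) * ω - α ^ 3 + 15 * (X * α ^ 2) +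
      1100 * (X ^ 2 * α) + 9375 * X ^ 3) * e125
  have hDX : PowerSeries.derivative (ZMod p) X = 1 := by
    rw [hXX]
    exact PowerSeries.derivative_X
  have hD50 : 50 * PowerSeries.derivative (ZMod p) ξ = 2 * α * PowerSeries.derivative (ZMod p) α -
      10 * (α + X * PowerSeries.derivative (ZMod p) α) - 700 * X -
      5 * PowerSeries.derivative (ZMod p) ω := by
    have h6 := congrArg (PowerSeries.derivative (ZMod p)) f50
    have hn : ∀ n : ℕ, PowerSeries.derivative (ZMod p) (n : PowerSeries (ZMod p)) = 0 := fun n =>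
      Derivation.map_natCast _ n
    have h50 : PowerSeries.derivative (ZMod p) (50 : PowerSeries (ZMod p)) = 0 := hn 50
    have h10 : PowerSeries.derivative (ZMod p) (10 : PowerSeries (ZMod p)) = 0 := hn 10
    have h350 : PowerSeries.derivative (ZMod p) (350 : PowerSeries (ZMod p)) = 0 := hn 350
    have h05 : PowerSeries.derivative (ZMod p) (5 : PowerSeries (ZMod p)) = 0 := hn 5
    simp only [map_sub, Derivation.leibniz, Derivation.leibniz_pow, h50, h10, h350, h05, hDX,
      smul_eq_mul, nsmul_eq_mul, mul_zero, add_zero] at h6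
    push_cast at h6
    rw [h6]
    ring
  have cX : PowerSeries.constantCoeff X = 0 := PowerSeries.constantCoeff_X
  have h6 := hasse p hp2 φ ξ σ
    (by
      have h7 := congrArg PowerSeries.constantCoeff f50
      simp only [map_mul, map_sub, map_pow, map_ofNat, cA', cW', cX] at h7
      have h8 : (50 : ZMod p) * PowerSeries.constantCoeff ξ = 50 * 1 := by
        rw [h7]; ring
      exact mul_left_cancel₀ n50 h8)
    (by
      have h7 := congrArg PowerSeries.constantCoeff f125
      simp only [map_mul, map_sub, map_add, map_pow, map_ofNat, cA', cW', cX] at h7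
      have h8 : (125 : ZMod p) * PowerSeries.constantCoeff σ = 125 * (-2) := by
        rw [h7]; ring
      exact mul_left_cancel₀ n125 h8)
    (by
      have h7 : (50 * 5) * (X * PowerSeries.derivative (ZMod p) ξ - 2 * ξ) = (50 * 5) * (φ * σ) := by
        linear_combination (5 * X) * hD50 - 10 * f50 - 2 * φ * f125 - h4 -
          (10 * (α - 5 * X)) * h5
      exact mul_left_cancel₀ (mul_ne_zero u50 u5) h7)
    (by
      have h7 : (2 ^ 3 * 5 ^ 6) * σ ^ 2 = (2 ^ 3 * 5 ^ 6) * (4 * ξ ^ 3 - 4 * X ^ 2 * ξ ^ 2 -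
          40 * X ^ 4 * ξ - 79 * X ^ 6) := by
        have g1 : (2 ^ 3 * 5 ^ 6) * σ ^ 2 = 8 * (125 * σ) ^ 2 := by ring
        have g2 : (2 ^ 3 * 5 ^ 6) * (4 * ξ ^ 3 - 4 * X ^ 2 * ξ ^ 2 - 40 * X ^ 4 * ξ - 79 * X ^ 6) =
          4 * (50 * ξ) ^ 3 - 200 * X ^ 2 * (50 * ξ) ^ 2 - 100000 * X ^ 4 * (50 * ξ) -
            9875000 * X ^ 6 := by ring
        rw [g1, g2, f50, f125]
        linear_combination (8 * (α - 5 * X) ^ 2 - 12 * (α ^ 2 - 10 * (X * α) - 1150 * X ^ 2) +
          20 * ω - 9400 * X ^ 2) * h3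
      exact mul_left_cancel₀ (mul_ne_zero (pow_ne_zero 3 u2) (pow_ne_zero 6 u5)) h7)
  rw [← h6, hφ, hm, PowerSeries.coeff_map]
  simp

end formal

end Pool.Agent.Y702.M
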