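import Pool.Agent.Y702.M.Fun
import Pool.Agent.W97.MT.Cusps
import Pool.Agent.W97.MT.QX

/-!
Expansions of the functions on `X_0(11)`.
-/

set_option autoImplicit false

open PowerSeries

namespace Pool.Agent.Y702.M

open Pool.Agent.W97.TW
open Pool.Agent.W97.MT (S_QEXP Rep RepC Q_ne Q_ne_pow num qq qq_ne norm_qq norm_qq_lt tt tt_ne
  tt_pow eta_mul eta_one iI iI_pos iI_eventually QV H_open im_mul G_mul tendsto_qq hasDerivAt_qq
  Qq_analytic QV_zero_of_dvd G_ne z_ne Tr mulL dilL tr_euler l1)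

/-- `(Q(q)/Q(q^11))^12` -/
noncomputable def kf (q : ℂ) : ℂ := Q q ^ 12 * (Q (q ^ 11) ^ 12)⁻¹

/-- `ff / q` -/
noncomputable def phi (q : ℂ) : ℂ := Q q ^ 2 * Q (q ^ 11) ^ 2

/-- the expansion of `ee` -/
noncomputable def e5 (q : ℂ) : ℂ := 5 - q * deriv kf q * (kf q)⁻¹

/-- the expansion of `5 q s` -/
noncomputable def Af (q : ℂ) : ℂ := e5 q * (phi q)⁻¹ - 12 * q

/-- the expansion of `5 q² v` -/
noncomputable def Wf (q : ℂ) : ℂ := (q * deriv Af q - Af q) * (phi q)⁻¹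

/-- list of `kf` -/
def lK : List ℤ := [1, -12, 54, -88, -99, 540, -418, -648, 594, 836, 1056, -4092, -353]

/-- list of `e5` -/
def le5 : List ℤ := [5, 12, 36, 48, 84, 72, 144, 96, 180, 156, 216, 12, 336]

/-- list of `phi` -/
def lP : List ℤ := [1, -2, -1, 2, 1, 2, -2, 0, -2, -2, 1, -2, 4]

/-- list of `Af` -/
def lA : List ℤ := [5, 10, 85, 230, 580, 1260, 2665, 5170, 9805, 17700, 31265, 53270, 89485]

/-- list of `Wf` -/
def lW : List ℤ := [-5, -10, 60, 580, 2985, 11490, 38080, 111980, 303660, 768410, 1842920, 4215750,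
  9277545]

theorem expansions (hq : S_QEXP) : ∃ K P A W : ℤ⟦X⟧, Rep kf K ∧ Rep phi P ∧ Rep Af A ∧ Rep Wf W ∧
    constantCoeff P = 1 ∧
    P * W = PowerSeries.X * PowerSeries.derivative ℤ A - A ∧ Tr P lP ∧ Tr A lA ∧ Tr W lW := by
  obtain ⟨φ, h1, hr, hx⟩ := hq
  have hR : Rep Q φ := fun q hq => by
    have := hr q hq
    simpa [Q] using this
  have t1 := tr_euler hx
  have el : (11 : ℕ) ≠ 0 := by norm_num
  have r11 := hR.expand 11 el
  have t11 := t1.expand el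
  set E := PowerSeries.expand 11 el φ with hE
  have c11 : constantCoeff E = 1 := by rw [hE]; simpa using h1
  have hinv : ∀ E : ℤ⟦X⟧, constantCoeff E = 1 → ∃ V : ℤ⟦X⟧, E * V = 1 := fun E hE => by
    have hu : IsUnit E := by
      rw [PowerSeries.isUnit_iff_constantCoeff, hE]; exact isUnit_one
    exact hu.exists_right_inv
  obtain ⟨V, hV⟩ := hinv (E ^ 12) (by rw [map_pow, c11, one_pow])
  have cV : constantCoeff V = 1 := by
    have := congrArg constantCoeff hV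
    simpa [c11] using this
  have rV := (r11.pow 12).inv hV fun q hq => pow_ne_zero _ (Q_ne_pow hq el)
  have rK : Rep kf (φ ^ 12 * V) := (hR.pow 12).mul rV
  have cK : constantCoeff (φ ^ 12 * V) = 1 := by
    rw [map_mul, map_pow, h1, cV, one_pow, mul_one]
  have tK : Tr (φ ^ 12 * V) lK := by
    refine Tr.cancel (W := E ^ 12) (b := Tr.powL l1 12) ?_
      (t11.pow 12) (by rw [map_pow, c11, one_pow]) (by decide +kernel)
    refine (t1.pow 12).of_eq ?_
    linear_combination (-(φ ^ 12)) * hV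
  set K := φ ^ 12 * V with hK
  obtain ⟨Ki, hKi⟩ := hinv K cK
  have kne : ∀ q : ℂ, ‖q‖ < 1 → kf q ≠ 0 := fun q hq =>
    mul_ne_zero (pow_ne_zero _ (Q_ne hq)) (inv_ne_zero (pow_ne_zero _ (Q_ne_pow hq el)))
  have rKi := rK.inv hKi kne
  have r5 : Rep e5 (PowerSeries.C 5 - PowerSeries.X * PowerSeries.derivative ℤ K * Ki) :=
    (Rep.C 5).sub (rK.theta.mul rKi) |>.congr fun q _ => by unfold e5; norm_num
  have t5 : Tr (PowerSeries.C 5 - PowerSeries.X * PowerSeries.derivative ℤ K * Ki) le5 := by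
    refine Tr.cancel (W := K)
      (b := Pool.Agent.W97.MT.subL (mulL [5] lK) (Pool.Agent.W97.MT.thL lK)) ?_ tK cK
      (by decide +kernel)
    refine (((Tr.C 5).mul tK).sub tK.theta).of_eq ?_
    linear_combination (PowerSeries.X * PowerSeries.derivative ℤ K) * hKi
  set E5 := PowerSeries.C 5 - PowerSeries.X * PowerSeries.derivative ℤ K * Ki with hE5
  have rP : Rep phi (φ ^ 2 * E ^ 2) := (hR.pow 2).mul (r11.pow 2)
  have cP : constantCoeff (φ ^ 2 * E ^ 2) = 1 := by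
    rw [map_mul, map_pow, map_pow, h1, c11]; norm_num
  have tP : Tr (φ ^ 2 * E ^ 2) lP := ((t1.pow 2).mul (t11.pow 2)).congr (by decide +kernel)
  set P := φ ^ 2 * E ^ 2 with hP
  obtain ⟨Pi, hPi⟩ := hinv P cP
  have pne : ∀ q : ℂ, ‖q‖ < 1 → phi q ≠ 0 := fun q hq =>
    mul_ne_zero (pow_ne_zero _ (Q_ne hq)) (pow_ne_zero _ (Q_ne_pow hq el))
  have rPi := rP.inv hPi pne
  have rA : Rep Af (E5 * Pi - PowerSeries.C 12 * PowerSeries.X) :=
    ((r5.mul rPi).sub ((Rep.C 12).mul Rep.X)).congr fun q _ => by unfold Af; norm_num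
  have tA : Tr (E5 * Pi - PowerSeries.C 12 * PowerSeries.X) lA := by
    refine Tr.cancel (W := P)
      (b := Pool.Agent.W97.MT.subL le5 (mulL (mulL [12] [0, 1]) lP)) ?_ tP cP (by decide +kernel)
    refine (t5.sub (((Tr.C 12).mul Tr.X).mul tP)).of_eq ?_
    linear_combination (-E5) * hPi
  set A := E5 * Pi - PowerSeries.C 12 * PowerSeries.X with hA
  have rW : Rep Wf ((PowerSeries.X * PowerSeries.derivative ℤ A - A) * Pi) :=
    (rA.theta.sub rA).mul rPi
  have tW : Tr ((PowerSeries.X * PowerSeries.derivative ℤ A - A) * Pi) lW := by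
    refine Tr.cancel (W := P)
      (b := Pool.Agent.W97.MT.subL (Pool.Agent.W97.MT.thL lA) lA) ?_ tP cP (by decide +kernel)
    refine (tA.theta.sub tA).of_eq ?_
    linear_combination (-(PowerSeries.X * PowerSeries.derivative ℤ A - A)) * hPi
  refine ⟨K, P, A, _, rK, rP, rA, rW, cP, ?_, tP, tA, tW⟩
  linear_combination (PowerSeries.X * PowerSeries.derivative ℤ A - A) * hPi

theorem identity_one {A W : ℤ⟦X⟧} (hA : Tr A lA) (hW : Tr W lW) : PowerSeries.X ^ 13 ∣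
    25 * W ^ 2 - (A ^ 4 - 20 * (PowerSeries.X * A ^ 3) - 2200 * (PowerSeries.X ^ 2 * A ^ 2) -
      37500 * (PowerSeries.X ^ 3 * A) - 190000 * PowerSeries.X ^ 4) := by
  refine Tr.dvd_of_zero ?_
  rw [num 25, num 20, num 2200, num 37500, num 190000]
  refine Tr.congr (((Tr.C 25).mul (hW.pow 2)).sub (((((hA.pow 4).sub ((Tr.C 20).mul
    (Tr.X.mul (hA.pow 3)))).sub ((Tr.C 2200).mul ((Tr.X.pow 2).mul (hA.pow 2)))).sub
    ((Tr.C 37500).mul ((Tr.X.pow 3).mul hA))).sub ((Tr.C 190000).mul (Tr.X.pow 4)))) ?_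
  decide +kernel

theorem identity_two {P A W : ℤ⟦X⟧} (hP : Tr P lP) (hA : Tr A lA) (hW : Tr W lW) :
    PowerSeries.X ^ 13 ∣
    25 * (PowerSeries.X * PowerSeries.derivative ℤ W - 2 * W) - P * (2 * A ^ 3 -
      30 * (PowerSeries.X * A ^ 2) - 2200 * (PowerSeries.X ^ 2 * A) -
      18750 * PowerSeries.X ^ 3) := by
  refine Tr.dvd_of_zero ?_
  rw [num 25, num 2, num 30, num 2200, num 18750]
  refine Tr.congr (((Tr.C 25).mul (hW.theta.sub ((Tr.C 2).mul hW))).sub (hP.mul (((((Tr.C 2).mul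
    (hA.pow 3)).sub ((Tr.C 30).mul (Tr.X.mul (hA.pow 2)))).sub ((Tr.C 2200).mul
    ((Tr.X.pow 2).mul hA))).sub ((Tr.C 18750).mul (Tr.X.pow 3))))) ?_
  decide +kernel

end Pool.Agent.Y702.M
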