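import Pool.Agent.W97.MT.Lat
import Pool.Agent.Y702.Stm

/-!
Functions on `X_0(11)`.
-/

set_option autoImplicit false

open Filter Topology

namespace Pool.Agent.Y702.M

open Pool.Agent.W97.TW
open Pool.Agent.W97.MT (S_QEXP Rep RepC Q_ne Q_ne_pow num qq qq_ne norm_qq norm_qq_lt tt tt_ne
  tt_pow eta_mul eta_one iI iI_pos iI_eventually QV H_open im_mul G_mul tendsto_qq hasDerivAt_qq
  Qq_analytic QV_zero_of_dvd G_ne z_ne Qd_diff eta_diff ze_dvd exists_qq const_of_deriv)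

/-- the transformations under `Γ_0(11)` -/
lemma G11_gamma {a b c d : ℤ} (h : a * d - b * (11 * c) = 1) {w : ℂ} (hw : 0 < w.im) :
    0 < ((a * w + b) / (11 * c * w + d) : ℂ).im ∧ (11 * c * w + d : ℂ) ≠ 0 ∧
    G ((a * w + b) / (11 * c * w + d)) = ze ^ (kap a b (11 * c) d) * (11 * c * w + d) * G w ∧
    G (11 * ((a * w + b) / (11 * c * w + d))) =
      ze ^ (kap a (11 * b) c d) * (11 * c * w + d) * G (11 * w) := by
  have h0 := im_moebius h hw
  have e1 := G_moebius h hw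
  have e5 := G_moebius (a := a) (b := 11 * b) (c := c) (d := d) (by linarith)
    (im_mul hw 11 (by norm_num))
  push_cast at h0 e1 e5
  refine ⟨h0.1, h0.2, e1, ?_⟩
  have e : (11 : ℂ) * ((a * w + b) / (11 * c * w + d)) =
      (a * (11 * w) + 11 * b) / (c * (11 * w) + d) := by
    rw [← mul_div_assoc]; congr 1 <;> ring
  rw [e, e5]; ring

lemma G11_ne {w : ℂ} (hw : 0 < w.im) : G w ≠ 0 ∧ G (11 * w) ≠ 0 := by
  refine ⟨G_ne hw, ?_⟩
  have := G_ne (im_mul hw 11 (by norm_num))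
  push_cast at this
  exact this

/-- `η(w)² η(11w)²` -/
noncomputable def ff (w : ℂ) : ℂ := G w * G (11 * w)

lemma ff_ne {w : ℂ} (hw : 0 < w.im) : ff w ≠ 0 := mul_ne_zero (G11_ne hw).1 (G11_ne hw).2

lemma G_diff {w : ℂ} (hw : 0 < w.im) : DifferentiableAt ℂ G w := by
  have h1 := eta_diff hw 1 (by norm_num)
  push_cast at h1
  simp only [one_mul] at h1
  exact h1.pow 2

lemma G11_diff {w : ℂ} (hw : 0 < w.im) : DifferentiableAt ℂ (fun w => G (11 * w)) w := by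
  have h1 := eta_diff hw 11 (by norm_num)
  push_cast at h1
  exact h1.pow 2

lemma ff_diff {w : ℂ} (hw : 0 < w.im) : DifferentiableAt ℂ ff w := (G_diff hw).mul (G11_diff hw)

lemma ff_gamma {a b c d : ℤ} (h : a * d - b * (11 * c) = 1) {w : ℂ} (hw : 0 < w.im) :
    ff ((a * w + b) / (11 * c * w + d)) = (11 * c * w + d) ^ 2 * ff w := by
  obtain ⟨-, -, e1, e5⟩ := G11_gamma h hw
  have h2 : ze ^ (kap a b (11 * c) d) * ze ^ (kap a (11 * b) c d) = 1 := by
    rw [← zpow_add₀ ze_ne]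
    exact ze_dvd (kap_11 h)
  unfold ff
  rw [e1, e5]
  linear_combination ((11 * c * w + d) ^ 2 * (G w * G (11 * w))) * h2

lemma W_pos {w : ℂ} (hw : 0 < w.im) : 0 < (-1 / (11 * w) : ℂ).im := by
  have him : 0 < ((11 : ℂ) * w).im := by
    have := im_mul hw 11 (by norm_num)
    push_cast at this
    exact this
  have := (im_moebius (a := 0) (b := -1) (c := 1) (d := 0) (by norm_num) him).1
  simpa using this

lemma G_W {w : ℂ} (hw : 0 < w.im) : G (-1 / (11 * w)) = -Complex.I * (11 * w) * G (11 * w) ∧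
    G (11 * (-1 / (11 * w))) = -Complex.I * w * G w := by
  have hw0 : w ≠ 0 := z_ne hw
  refine ⟨G_S (im_mul hw 11 (by norm_num)), ?_⟩
  rw [show (11 : ℂ) * (-1 / (11 * w)) = -1 / w by field_simp]
  exact G_S hw

lemma ff_W {w : ℂ} (hw : 0 < w.im) : ff (-1 / (11 * w)) = -(11 * w ^ 2) * ff w := by
  obtain ⟨e1, e2⟩ := G_W hw
  unfold ff
  rw [e1, e2]
  linear_combination (11 * w ^ 2 * G w * G (11 * w)) * Complex.I_mul_I

/-- `(η(w)/η(11w))^12` -/
noncomputable def tf (w : ℂ) : ℂ := (G w / G (11 * w)) ^ 6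

lemma tf_ne {w : ℂ} (hw : 0 < w.im) : tf w ≠ 0 :=
  pow_ne_zero _ (div_ne_zero (G11_ne hw).1 (G11_ne hw).2)

lemma tf_diff {w : ℂ} (hw : 0 < w.im) : DifferentiableAt ℂ tf w :=
  ((G_diff hw).div (G11_diff hw) (G11_ne hw).2).pow 6

lemma kap11_4 : ∀ a b c d : ZMod 4, a * d - b * (11 * c) = 1 →
    2 * (kap a b (11 * c) d - kap a (11 * b) c d) = 0 := by
  decide

lemma phase11 {a b c d : ℤ} (h : a * d - b * (11 * c) = 1) :
    (12 : ℤ) ∣ 6 * (kap a b (11 * c) d - kap a (11 * b) c d) := by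
  have h4 := kap11_4 a b c d (by exact_mod_cast congrArg (Int.cast : ℤ → ZMod 4) h)
  have h5 : ((2 * (kap a b (11 * c) d - kap a (11 * b) c d) : ℤ) : ZMod 4) = 0 := by
    push_cast [cast_kap]
    exact h4
  have h6 := (ZMod.intCast_zmod_eq_zero_iff_dvd _ 4).1 h5
  omega

lemma tf_gamma {a b c d : ℤ} (h : a * d - b * (11 * c) = 1) {w : ℂ} (hw : 0 < w.im) :
    tf ((a * w + b) / (11 * c * w + d)) = tf w := by
  obtain ⟨-, h0, e1, e5⟩ := G11_gamma h hw
  obtain ⟨n1, n5⟩ := G11_ne hw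
  unfold tf
  rw [e1, e5]
  have h1 : ze ^ (kap a b (11 * c) d) * (11 * c * w + d) * G w /
      (ze ^ (kap a (11 * b) c d) * (11 * c * w + d) * G (11 * w)) =
      ze ^ (kap a b (11 * c) d - kap a (11 * b) c d) * (G w / G (11 * w)) := by
    rw [zpow_sub₀ ze_ne]
    have := zpow_ne_zero (kap a (11 * b) c d) ze_ne
    field_simp
  rw [h1, mul_pow, ← zpow_natCast (ze ^ _) 6, ← zpow_mul]
  have h2 := ze_dvd (phase11 h)
  rw [mul_comm] at h2
  push_cast
  rw [h2, one_mul]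

lemma tf_W {w : ℂ} (hw : 0 < w.im) : tf (-1 / (11 * w)) = 11 ^ 6 / tf w := by
  have hw0 : w ≠ 0 := z_ne hw
  obtain ⟨n1, n5⟩ := G11_ne hw
  obtain ⟨e1, e2⟩ := G_W hw
  have hI := Complex.I_ne_zero
  unfold tf
  rw [e1, e2]
  field_simp

lemma tpi_ne : (2 * Real.pi * Complex.I : ℂ) ≠ 0 := Complex.two_pi_I_ne_zero

/-- `g' / (2πi)` -/
noncomputable def D (g : ℂ → ℂ) (w : ℂ) : ℂ := deriv g w / (2 * Real.pi * Complex.I)

/-- differentiability on the upper half-plane -/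
def Hol (g : ℂ → ℂ) : Prop := ∀ z : ℂ, 0 < z.im → DifferentiableAt ℂ g z

lemma Hol.on {g : ℂ → ℂ} (h : Hol g) : DifferentiableOn ℂ g {z : ℂ | 0 < z.im} := fun w hw =>
  (h w hw).differentiableWithinAt

lemma Hol.D {g : ℂ → ℂ} (h : Hol g) : Hol (D g) := fun w hw =>
  (((h.on).deriv H_open).differentiableAt (H_open.mem_nhds hw)).div_const _

/-- invariance of weight `k` under `Γ_0(11)` -/
def Inv (k : ℕ) (g : ℂ → ℂ) : Prop := ∀ a b c d : ℤ, a * d - b * (11 * c) = 1 → ∀ z : ℂ,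
  0 < z.im → g ((a * z + b) / (11 * c * z + d)) = (11 * c * z + d) ^ k * g z

lemma hasDerivAt_gamma {a b c d : ℤ} (h : a * d - b * (11 * c) = 1) {z : ℂ} (hz : 0 < z.im) :
    HasDerivAt (fun z : ℂ => (a * z + b) / (11 * c * z + d)) (((11 * c * z + d) ^ 2)⁻¹) z := by
  have h0 := (G11_gamma h hz).2.1
  have h1 : HasDerivAt (fun w : ℂ => (a : ℂ) * w + b) a z := by
    simpa using ((hasDerivAt_id z).const_mul (a : ℂ)).add_const (b : ℂ)
  have h2 : HasDerivAt (fun w : ℂ => 11 * (c : ℂ) * w + d) (11 * c) z := by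
    simpa using ((hasDerivAt_id z).const_mul (11 * (c : ℂ))).add_const (d : ℂ)
  refine (h1.div h2 h0).congr_deriv ?_
  have h3 : (a : ℂ) * d - b * (11 * c) = 1 := by exact_mod_cast h
  field_simp
  linear_combination h3

lemma hasDerivAt_W {z : ℂ} (hz : 0 < z.im) :
    HasDerivAt (fun z : ℂ => -1 / (11 * z)) (1 / (11 * z ^ 2)) z := by
  have hz0 : z ≠ 0 := z_ne hz
  have h7 : HasDerivAt (fun z : ℂ => 11 * z) 11 z := by
    simpa using (hasDerivAt_id z).const_mul (11 : ℂ)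
  refine ((hasDerivAt_const z (-1 : ℂ)).div h7 (mul_ne_zero (by norm_num) hz0)).congr_deriv ?_
  field_simp
  norm_num

lemma Inv.D {g : ℂ → ℂ} (hg : Hol g) (hi : Inv 0 g) : Inv 2 (D g) := by
  intro a b c d h z hz
  have h0 := (G11_gamma h hz).2.1
  have hm := (G11_gamma h hz).1
  have h1 := (hg _ hm).hasDerivAt.comp z (hasDerivAt_gamma h hz)
  have h2 : g ∘ (fun z : ℂ => (a * z + b) / (11 * c * z + d)) =ᶠ[𝓝 z] g := by
    filter_upwards [H_open.mem_nhds hz] with w hw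
    have := hi a b c d h w hw
    rw [pow_zero, one_mul] at this
    exact this
  have h3 := (h1.congr_of_eventuallyEq h2.symm).deriv
  unfold M.D
  rw [h3, ← mul_div_assoc, mul_left_comm, mul_inv_cancel₀ (pow_ne_zero 2 h0), mul_one]

/-- `(g ∘ W) = ε g` -/
lemma D_W {g : ℂ → ℂ} (hg : Hol g) {ε : ℂ} (hi : ∀ z : ℂ, 0 < z.im → g (-1 / (11 * z)) = ε * g z) :
    ∀ z : ℂ, 0 < z.im → D g (-1 / (11 * z)) = ε * (11 * z ^ 2) * D g z := by
  intro z hz
  have hz0 : z ≠ 0 := z_ne hz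
  have h1 := (hg _ (W_pos hz)).hasDerivAt.comp z (hasDerivAt_W hz)
  have h2 : g ∘ (fun z : ℂ => -1 / (11 * z)) =ᶠ[𝓝 z] fun z => ε * g z := by
    filter_upwards [H_open.mem_nhds hz] with w hw
    exact hi w hw
  have h3 := (h1.congr_of_eventuallyEq h2.symm).unique ((hg z hz).hasDerivAt.const_mul ε)
  unfold D
  have h4 : deriv g (-1 / (11 * z)) = 11 * z ^ 2 * (ε * deriv g z) := by
    rw [← h3]
    field_simp
  rw [h4]
  ring

/-- the Eisenstein series `5 + 12 ∑ (σ(n) - 11 σ(n/11)) q^n` -/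
noncomputable def ee (w : ℂ) : ℂ := - D tf w / tf w

lemma ee_diff : Hol ee := fun w hw => by
  have h1 : Hol tf := fun _ hw => tf_diff hw
  exact ((h1.D w hw).neg).div (tf_diff hw) (tf_ne hw)

lemma ee_gamma : Inv 2 ee := by
  intro a b c d h z hz
  have h1 : Hol tf := fun w hw => tf_diff hw
  have h2 : Inv 0 tf := fun a b c d h z hz => by rw [tf_gamma h hz, pow_zero, one_mul]
  have h3 := Inv.D h1 h2 a b c d h z hz
  unfold ee
  rw [h3, tf_gamma h hz]
  ring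

lemma ee_W {z : ℂ} (hz : 0 < z.im) : ee (-1 / (11 * z)) = -(11 * z ^ 2) * ee z := by
  have hz0 : z ≠ 0 := z_ne hz
  have h1 := (tf_diff (W_pos hz)).hasDerivAt.comp z (hasDerivAt_W hz)
  have h2 : tf ∘ (fun z : ℂ => -1 / (11 * z)) =ᶠ[𝓝 z] fun z => 11 ^ 6 / tf z := by
    filter_upwards [H_open.mem_nhds hz] with w hw
    exact tf_W hw
  have h3 := (hasDerivAt_const z ((11 : ℂ) ^ 6)).div (tf_diff hz).hasDerivAt (tf_ne hz)
  have h4 := (h1.congr_of_eventuallyEq h2.symm).unique h3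
  have h5 : deriv tf (-1 / (11 * z)) = -(11 * z ^ 2) * (11 ^ 6 * deriv tf z / tf z ^ 2) := by
    have e : (11 * z ^ 2 : ℂ) ≠ 0 := mul_ne_zero (by norm_num) (pow_ne_zero 2 hz0)
    have h6 : deriv tf (-1 / (11 * z)) = (deriv tf (-1 / (11 * z)) * (1 / (11 * z ^ 2))) *
        (11 * z ^ 2) := by
      field_simp
    rw [h6, h4]
    ring
  have h7 := tf_ne hz
  unfold ee D
  rw [h5, tf_W hz]
  field_simp

/-- the function `s` -/
noncomputable def sf (w : ℂ) : ℂ := (ee w / ff w - 12) / 5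

lemma sf_diff : Hol sf := fun w hw =>
  (((ee_diff w hw).div (ff_diff hw) (ff_ne hw)).sub_const 12).div_const 5

lemma sf_inv : Inv 0 sf := by
  intro a b c d h z hz
  have h0 := (G11_gamma h hz).2.1
  unfold sf
  rw [ee_gamma a b c d h z hz, ff_gamma h hz, mul_div_mul_left _ _ (pow_ne_zero 2 h0)]
  ring

lemma sf_W : ∀ z : ℂ, 0 < z.im → sf (-1 / (11 * z)) = 1 * sf z := by
  intro z hz
  have hz0 : z ≠ 0 := z_ne hz
  have e : (-(11 * z ^ 2) : ℂ) ≠ 0 := neg_ne_zero.2 (mul_ne_zero (by norm_num) (pow_ne_zero 2 hz0))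
  unfold sf
  rw [ee_W hz, ff_W hz, mul_div_mul_left _ _ e]
  ring

/-- `g' / (2πi ff)` -/
noncomputable def DD (g : ℂ → ℂ) (w : ℂ) : ℂ := D g w / ff w

lemma DD_diff {g : ℂ → ℂ} (h : Hol g) : Hol (DD g) := fun w hw =>
  (h.D w hw).div (ff_diff hw) (ff_ne hw)

lemma DD_inv {g : ℂ → ℂ} (h : Hol g) (hi : Inv 0 g) : Inv 0 (DD g) := by
  intro a b c d h' z hz
  have h0 := (G11_gamma h' hz).2.1
  unfold DD
  rw [hi.D h a b c d h' z hz, ff_gamma h' hz, mul_div_mul_left _ _ (pow_ne_zero 2 h0)]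
  ring

lemma DD_W {g : ℂ → ℂ} (hg : Hol g) {ε : ℂ} (hi : ∀ z : ℂ, 0 < z.im → g (-1 / (11 * z)) = ε * g z) :
    ∀ z : ℂ, 0 < z.im → DD g (-1 / (11 * z)) = -ε * DD g z := by
  intro z hz
  have hz0 : z ≠ 0 := z_ne hz
  have h1 := ff_ne hz
  unfold DD
  rw [D_W hg hi z hz, ff_W hz]
  field_simp

/-- the function `v` -/
noncomputable def vf (w : ℂ) : ℂ := DD sf w

lemma vf_diff : Hol vf := DD_diff sf_diff

lemma vf_inv : Inv 0 vf := DD_inv sf_diff sf_inv

lemma vf_W : ∀ z : ℂ, 0 < z.im → vf (-1 / (11 * z)) = -1 * vf z := DD_W sf_diff sf_W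

lemma dvf_inv : Inv 0 (DD vf) := DD_inv vf_diff vf_inv

lemma dvf_W : ∀ z : ℂ, 0 < z.im → DD vf (-1 / (11 * z)) = 1 * DD vf z := by
  intro z hz
  rw [DD_W vf_diff vf_W z hz]
  ring

/-- the constant principle -/
theorem cp_zero (hcp : S_CP11) {g : ℂ → ℂ} (hd : Hol g) (hinv : Inv 0 g) (h1 : QV g 0)
    (hW : ∀ z : ℂ, 0 < z.im → g (-1 / (11 * z)) = 1 * g z) :
    ∀ z : ℂ, 0 < z.im → g z = 0 := by
  have h5 : QV (fun z => g (-1 / (11 * z))) 0 :=
    h1.of_eq (iI_pos.mono fun z hz => by rw [hW z hz, one_mul])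
  obtain ⟨c, hc⟩ := hcp g hd.on (fun a b c d h z hz => by
    have := hinv a b c d h z hz
    rwa [pow_zero, one_mul] at this) h1.bounded' h5.bounded
  have h3 : QV g c := (QV.const c).of_eq (iI_pos.mono fun z hz => hc z hz)
  have h4 := h3.val_unique h1
  intro z hz
  rw [hc z hz, h4]

end Pool.Agent.Y702.M
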