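import Pool.Agent.Y702.M.Rea

/-!
Hecke operators on the form on `X_0(11)` and on its primitive.
-/

set_option autoImplicit false

open Filter Topology MeasureTheory Set UpperHalfPlane MatrixGroups CongruenceSubgroup

namespace Pool.Agent.Y702.M

open Pool.Agent.W97.TW
open Pool.Agent.W97.MT (S_QEXP S_ODE S_INJ Rep RepC Q_ne Q_ne_pow num qq qq_ne norm_qq norm_qq_lt
  tt tt_ne tt_pow eta_mul eta_one iI iI_pos iI_eventually QV H_open im_mul G_mul tendsto_qq
  hasDerivAt_qq Qq_analytic QV_zero_of_dvd G_ne z_ne hqe hinj hode exists_qq wA wA_same wA_eq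
  wA_analytic const_of_deriv Qd_diff qParam_one)

/-- the coefficients -/
noncomputable def cc (n : ℕ) : ℂ := (qExpansion 1 f11).coeff n

lemma cc_one : cc 1 = 1 := isNewform_f11.coeff_one

lemma hecke11 {p : ℕ} (hp : p.Prime) (z : ℍ) : heckeT 11 2 p f11 z = cc p * f11 z := by
  obtain ⟨c, hc⟩ := isNewform_f11.hecke ⟨p, hp⟩
  have h2 := hecke_rec f11 hp.pos hc 1
  have h3 : A f11 1 = 1 := cc_one
  have h5 : B f11 p 1 = A f11 p := by
    unfold B
    rw [if_neg (c := p ∣ 1) (fun h => hp.one_lt.ne' (Nat.dvd_one.1 h)), mul_zero, zero_add, mul_one]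
  rw [h3, mul_one, h5] at h2
  rw [hc z, ← h2]
  rfl

lemma im_div {w : ℂ} (hw : 0 < w.im) {p : ℕ} (hp : 0 < p) (b : ℕ) : 0 < ((w + b) / p : ℂ).im := by
  have h1 : ((w + b) / p : ℂ) = ((1 / p : ℝ) : ℂ) * (w + b) := by
    push_cast; ring
  have h2 : (0 : ℝ) < p := by exact_mod_cast hp
  rw [h1, Complex.im_ofReal_mul]
  have h3 : (w + (b : ℂ)).im = w.im := by simp
  rw [h3]
  positivity

/-- the Hecke relation in the upper half-plane -/
lemma ff_hecke {p : ℕ} (hp : p.Prime) {z : ℂ} (hz : 0 < z.im) :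
    cc p * ff z = (if p ∣ 11 then 0 else (p : ℂ) * ff (p * z)) +
      (∑ b ∈ Finset.range p, ff ((z + b) / p)) / p := by
  have h1 := hecke11 hp ⟨z, hz⟩
  have e0 : f11 ⟨z, hz⟩ = ff z := f11_eq ⟨z, hz⟩
  rw [e0] at h1
  rw [← h1]
  unfold heckeT
  have key : ∀ w : ℂ, 0 < w.im → f11 (ofComplex w) = ff w := fun w hw => by
    rw [ofComplex_apply_of_im_pos hw]
    exact f11_eq ⟨w, hw⟩
  have e1 : ∀ b : ℕ, f11 (ofComplex (((⟨z, hz⟩ : ℍ) + b : ℂ) / p)) = ff ((z + b) / p) := fun b =>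
    key _ (im_div hz hp.pos b)
  have e2 : f11 (ofComplex ((p : ℂ) * ((⟨z, hz⟩ : ℍ) : ℂ))) = ff (p * z) :=
    key _ (im_mul hz p hp.pos)
  simp only [e1, e2]
  norm_num

/-- the Hecke relation for the primitive -/
theorem F_hecke {p : ℕ} (hp : p.Prime) {z : ℂ} (hz : 0 < z.im) :
    cc p * F z = (if p ∣ 11 then 0 else F (p * z)) + ∑ b ∈ Finset.range p, F ((z + b) / p) := by
  have hp0 : (p : ℂ) ≠ 0 := by exact_mod_cast hp.ne_zero
  have hlin : ∀ w : ℂ, HasDerivAt (fun z : ℂ => (p : ℂ) * z) p w := fun w => by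
    simpa using (hasDerivAt_id w).const_mul (p : ℂ)
  have hdiv : ∀ (b : ℕ) (w : ℂ), HasDerivAt (fun z : ℂ => (z + b) / p) (1 / p) w := fun b w =>
    ((hasDerivAt_id w).add_const (b : ℂ)).div_const (p : ℂ)
  obtain ⟨C, hC⟩ := const_of_deriv (g := fun z => (if p ∣ 11 then 0 else F (p * z)) +
      ∑ b ∈ Finset.range p, F ((z + b) / p) - cc p * F z) fun z hz => by
    have h1 : HasDerivAt (fun z : ℂ => if p ∣ 11 then (0 : ℂ) else F (p * z))
        (if p ∣ 11 then 0 else 2 * Real.pi * Complex.I * ff (p * z) * p) z := by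
      split_ifs
      · exact hasDerivAt_const z (0 : ℂ)
      · exact (F_deriv (im_mul hz p hp.pos)).comp z (hlin z)
    have h2 : HasDerivAt (fun z : ℂ => ∑ b ∈ Finset.range p, F ((z + b) / p))
        (∑ b ∈ Finset.range p, 2 * Real.pi * Complex.I * ff ((z + b) / p) * (1 / p)) z :=
      HasDerivAt.fun_sum fun b _ => by
        have := HasDerivAt.comp z (F_deriv (im_div hz hp.pos b)) (hdiv b z)
        exact this
    have h3 := (h1.add h2).sub ((F_deriv hz).const_mul (cc p))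
    refine h3.congr_deriv ?_
    have h4 := ff_hecke hp hz
    have h5 : (∑ b ∈ Finset.range p, 2 * (Real.pi : ℂ) * Complex.I * ff ((z + b) / p) * (1 / p)) =
        2 * Real.pi * Complex.I * ((∑ b ∈ Finset.range p, ff ((z + b) / p)) / p) := by
      rw [Finset.sum_div, Finset.mul_sum]
      refine Finset.sum_congr rfl fun b _ => ?_
      ring
    rw [h5]
    split_ifs at h4 ⊢ <;> linear_combination (-(2 * Real.pi * Complex.I)) * h4
  have hlim : Tendsto (fun z => (if p ∣ 11 then 0 else F (p * z)) +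
      ∑ b ∈ Finset.range p, F ((z + b) / p) - cc p * F z) iI (𝓝 (0 + 0 - cc p * 0)) := by
    have hpr : (0 : ℝ) < p := by exact_mod_cast hp.pos
    refine (Tendsto.add ?_ ?_).sub (F_QV.tendsto.const_mul _)
    · split_ifs
      · exact tendsto_const_nhds
      · refine F_QV.tendsto.comp ?_
        unfold iI
        rw [tendsto_comap_iff]
        refine (tendsto_comap.const_mul_atTop hpr).congr fun z => ?_
        simp
    · have : (0 : ℂ) = ∑ b ∈ Finset.range p, 0 := by simp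
      rw [this]
      refine tendsto_finsetSum _ fun b _ => F_QV.tendsto.comp ?_
      unfold iI
      rw [tendsto_comap_iff]
      refine (tendsto_comap.const_mul_atTop (show (0 : ℝ) < 1 / p by positivity)).congr fun z => ?_
      have h1 : ((z + b) / p : ℂ) = ((1 / p : ℝ) : ℂ) * (z + b) := by
        push_cast; ring
      rw [Function.comp_apply, h1, Complex.im_ofReal_mul]
      simp
  have h6 : Tendsto (fun z => (if p ∣ 11 then 0 else F (p * z)) +
      ∑ b ∈ Finset.range p, F ((z + b) / p) - cc p * F z) iI (𝓝 C) := by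
    refine tendsto_const_nhds.congr' ?_
    filter_upwards [iI_pos] with w hw
    rw [hC w hw]
  have h7 := tendsto_nhds_unique h6 hlim
  have h8 := hC z hz
  rw [h7] at h8
  linear_combination (-1 : ℂ) * h8

/-- the value at a rational number -/
noncomputable def J (r : ℚ) : ℂ :=
  limUnder (𝓝[>] (0 : ℝ)) (fun y : ℝ => F ((r : ℂ) + y * Complex.I))

/-- periodicity -/
lemma F_add_one {z : ℂ} : F (z + 1) = F z := by
  unfold F
  congr 1
  unfold qq
  have : 2 * (Real.pi : ℂ) * Complex.I * (z + 1) = 2 * Real.pi * Complex.I * z +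
    2 * Real.pi * Complex.I := by ring
  rw [this, Complex.exp_add, Complex.exp_two_pi_mul_I, mul_one]

lemma F_add_nat (z : ℂ) (n : ℕ) : F (z + n) = F z := by
  induction n with
  | zero => simp
  | succ n ih =>
    rw [← ih, ← F_add_one (z := z + n)]
    congr 1
    push_cast
    ring

lemma F_add_int (z : ℂ) (n : ℤ) : F (z + n) = F z := by
  obtain ⟨m, rfl | rfl⟩ := n.eq_nat_or_neg
  · exact_mod_cast F_add_nat z m
  · have := F_add_nat (z + ((-(m : ℤ) : ℤ) : ℂ)) m
    rw [← this]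
    congr 1
    push_cast
    ring

section lims

variable {C : ℂ} (hC : ∀ z : ℂ, 0 < z.im → F (-1 / (11 * z)) = C - F z)
  {Λ : Submodule ℤ ℂ} (hΛ : TH940.Pers f11 (Λ : Set ℂ))
include hC hΛ

lemma exists_lim (u : ℤ) (q : ℕ) (hq : 0 < q) (hu : IsCoprime u (q : ℤ)) (h11 : Nat.Coprime q 11) :
    ∃ w : ℂ, w - C ∈ Λ ∧ Tendsto (fun y : ℝ => F ((u : ℂ) / q + y * Complex.I)) (𝓝[>] 0) (𝓝 w) := by
  have : NeZero q := ⟨hq.ne'⟩
  have hq0 : (0 : ℝ) < q := by exact_mod_cast hq
  have h1 : IsCoprime (q : ℤ) ((11 : ℤ) * u) := by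
    refine IsCoprime.mul_right ?_ hu.symm
    exact_mod_cast Nat.isCoprime_iff_coprime.2 h11
  obtain ⟨a, b, hab⟩ := h1
  have hc0 : ∀ z : ℂ, 0 < z.im → TH940.prim f11 (-1 / (((11 : ℕ) : ℂ) * z)) =
      C - (1 : ℂ) * TH940.prim f11 z := by
    intro z hz
    have h2 := hC z hz
    have h3 := W_pos hz
    push_cast
    rw [prim_eq hz, prim_eq h3, h2, one_mul]
  obtain ⟨ω, hω, h2⟩ := TH940.prim_near f11 1 hc0 hΛ (q := q) u (-b) a
    (by push_cast; linear_combination hab)
  refine ⟨C + ω, by simpa using hω, ?_⟩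
  have h3 := TH940.prim_line f11 (((-b : ℤ) : ℝ) / q)
  have h4 : Tendsto (fun T : ℝ => C + ω - (1 : ℂ) * TH940.prim f11 (((((-b : ℤ) : ℝ) / q : ℝ) : ℂ) +
      (T : ℂ) * Complex.I)) atTop (𝓝 (C + ω - 1 * 0)) := (h3.const_mul _).const_sub _
  rw [mul_zero, sub_zero] at h4
  have h5 : Tendsto (fun y : ℝ => 1 / (11 * (q : ℝ) ^ 2 * y)) (𝓝[>] 0) atTop := by
    have h6 : Tendsto (fun y : ℝ => (11 * (q : ℝ) ^ 2)⁻¹ * y⁻¹) (𝓝[>] 0) atTop :=
      tendsto_inv_nhdsGT_zero.const_mul_atTop (by positivity)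
    refine h6.congr fun y => ?_
    rw [one_div, mul_inv (11 * (q : ℝ) ^ 2) y]
  refine (h4.comp h5).congr' ?_
  filter_upwards [self_mem_nhdsWithin] with y hy
  have hy0 : (0 : ℝ) < y := hy
  have h7 : (0 : ℝ) < 1 / (11 * (q : ℝ) ^ 2 * y) := by positivity
  have h8 := h2 _ h7
  have h9 : (1 / ((11 : ℕ) * (q : ℝ) ^ 2 * (1 / (11 * (q : ℝ) ^ 2 * y))) : ℝ) = y := by
    push_cast
    field_simp
  rw [h9, prim_eq (by
    have e : ((u : ℂ) / q + (y : ℂ) * Complex.I).im = y := by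
      rw [show ((u : ℂ) / q) = (((u : ℝ) / (q : ℝ) : ℝ) : ℂ) by push_cast; rfl]
      simp
    rw [e]; exact hy0)] at h8
  rw [h8, Function.comp_apply]
  push_cast
  rfl

/-- the limit at a rational number with denominator prime to `11` -/
theorem J_spec (r : ℚ) (hr : Nat.Coprime r.den 11) :
    J r - C ∈ Λ ∧ Tendsto (fun y : ℝ => F ((r : ℂ) + y * Complex.I)) (𝓝[>] 0) (𝓝 (J r)) := by
  obtain ⟨w, h1, h2⟩ := exists_lim hC hΛ r.num r.den r.pos
    (by
      have := Nat.isCoprime_iff_coprime.2 r.reduced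
      exact (Int.isCoprime_iff_gcd_eq_one.2 (by
        have h3 := r.reduced
        unfold Nat.Coprime at h3
        rw [Int.gcd_def, Int.natAbs_natCast]
        exact h3))) hr
  have e : ((r.num : ℂ) / r.den) = (r : ℂ) := by
    have := Rat.num_div_den r
    conv_rhs => rw [← this]
    push_cast
    rfl
  rw [e] at h2
  have h3 : J r = w := h2.limUnder_eq
  rw [h3]
  exact ⟨h1, h2⟩

end lims

end Pool.Agent.Y702.M
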