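import Pool.Agent.Y702.M.Exp

/-!
The identities between the functions on `X_0(11)`.
-/

set_option autoImplicit false

open Filter Topology

namespace Pool.Agent.Y702.M

open Pool.Agent.W97.TW
open Pool.Agent.W97.MT (S_QEXP Rep RepC Q_ne Q_ne_pow num qq qq_ne norm_qq norm_qq_lt tt tt_ne
  tt_pow eta_mul eta_one iI iI_pos iI_eventually QV H_open im_mul G_mul tendsto_qq hasDerivAt_qq
  Qq_analytic QV_zero_of_dvd G_ne z_ne)

lemma ff_q (z : ℂ) : ff z = qq z * phi (qq z) := by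
  have h1 := G_mul 1 z
  have h11 := G_mul 11 z
  push_cast at h1 h11
  rw [one_mul, pow_one] at h1
  unfold ff phi
  rw [h1, h11, ← tt_pow]
  ring

lemma phi_ne {z : ℂ} (hz : 0 < z.im) : phi (qq z) ≠ 0 := by
  intro h0
  have := ff_ne hz
  rw [ff_q, h0, mul_zero] at this
  exact this rfl

lemma kf_ne {z : ℂ} (hz : 0 < z.im) : kf (qq z) ≠ 0 :=
  mul_ne_zero (pow_ne_zero _ (Q_ne (norm_qq_lt hz)))
    (inv_ne_zero (pow_ne_zero _ (Q_ne_pow (norm_qq_lt hz) (by norm_num))))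

lemma tf_q {z : ℂ} (hz : 0 < z.im) : tf z = kf (qq z) / qq z ^ 5 := by
  have h1 := G_mul 1 z
  have h11 := G_mul 11 z
  push_cast at h1 h11
  rw [one_mul, pow_one] at h1
  have e1 := Q_ne (norm_qq_lt hz)
  have e11 := Q_ne_pow (norm_qq_lt hz) (d := 11) (by norm_num)
  have ht := tt_ne z
  unfold tf kf
  rw [h1, h11, ← tt_pow]
  field_simp

/-- the derivative of an expansion -/
lemma D_q {g h : ℂ → ℂ} {Φ : PowerSeries ℤ} (hh : Rep h Φ) (m : ℕ)
    (hg : ∀ z : ℂ, 0 < z.im → g z = h (qq z) / qq z ^ m) {z : ℂ} (hz : 0 < z.im) :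
    D g z = (qq z * deriv h (qq z) - m * h (qq z)) / qq z ^ m := by
  have hx : DifferentiableAt ℂ h (qq z) :=
    (RepC.differentiableOn hh).differentiableAt (Metric.isOpen_ball.mem_nhds
      (by simpa using norm_qq_lt hz))
  have hq := qq_ne z
  have h1 := (hx.hasDerivAt.comp z (hasDerivAt_qq z)).div ((hasDerivAt_qq z).pow m)
    (pow_ne_zero m hq)
  have h2 : g =ᶠ[𝓝 z] (h ∘ qq) / (qq ^ m) := by
    filter_upwards [H_open.mem_nhds hz] with w hw
    exact hg w hw
  have h3 := (h1.congr_of_eventuallyEq h2).deriv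
  have hI : (Complex.I : ℂ) ≠ 0 := Complex.I_ne_zero
  have hpi : (Real.pi : ℂ) ≠ 0 := by exact_mod_cast Real.pi_ne_zero
  unfold D
  rw [h3]
  simp only [Function.comp_apply, Pi.pow_apply]
  cases m with
  | zero => simp; field_simp
  | succ m =>
    rw [Nat.add_sub_cancel]
    field_simp
    ring

lemma D_const_mul {g : ℂ → ℂ} (hg : Hol g) (c : ℂ) {z : ℂ} (hz : 0 < z.im) :
    D (fun z => c * g z) z = c * D g z := by
  unfold D
  rw [((hg z hz).hasDerivAt.const_mul c).deriv]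
  ring

lemma ee_q {K : PowerSeries ℤ} (rK : Rep kf K) {z : ℂ} (hz : 0 < z.im) : ee z = e5 (qq z) := by
  have h1 := D_q rK 5 (fun z hz => tf_q hz) hz
  have h2 := kf_ne hz
  have hq := qq_ne z
  unfold ee e5
  rw [h1, tf_q hz]
  field_simp
  push_cast
  ring

lemma sf_q {K : PowerSeries ℤ} (rK : Rep kf K) {z : ℂ} (hz : 0 < z.im) :
    5 * sf z = Af (qq z) / qq z ^ 1 := by
  have h2 := phi_ne hz
  have hq := qq_ne z
  unfold sf Af
  rw [ee_q rK hz, ff_q]
  field_simp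

lemma vf_q {K A : PowerSeries ℤ} (rK : Rep kf K) (rA : Rep Af A) {z : ℂ} (hz : 0 < z.im) :
    5 * vf z = Wf (qq z) / qq z ^ 2 := by
  have h1 := D_q rA 1 (fun z hz => sf_q rK hz) hz
  have h2 := phi_ne hz
  have hq := qq_ne z
  rw [D_const_mul sf_diff 5 hz] at h1
  unfold vf DD Wf
  rw [← mul_div_assoc, h1, ff_q]
  field_simp
  push_cast
  ring

lemma dvf_q {K A W : PowerSeries ℤ} (rK : Rep kf K) (rA : Rep Af A) (rW : Rep Wf W) {z : ℂ}
    (hz : 0 < z.im) :
    qq z ^ 3 * (phi (qq z) * (5 * DD vf z)) = qq z * deriv Wf (qq z) - 2 * Wf (qq z) := by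
  have h1 := D_q rW 2 (fun z hz => vf_q rK rA hz) hz
  have h2 := phi_ne hz
  have hq := qq_ne z
  rw [D_const_mul vf_diff 5 hz] at h1
  unfold DD
  rw [← mul_div_assoc 5, h1, ff_q]
  field_simp
  push_cast
  ring

/-- the first relation -/
noncomputable def g1 (z : ℂ) : ℂ :=
  vf z ^ 2 - (sf z ^ 4 - 4 * sf z ^ 3 - 88 * sf z ^ 2 - 300 * sf z - 304)

/-- the second relation -/
noncomputable def g2 (z : ℂ) : ℂ := DD vf z - (2 * sf z ^ 3 - 6 * sf z ^ 2 - 88 * sf z - 150)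

lemma g1_diff : Hol g1 := fun z hz => by
  have h1 := sf_diff z hz
  have h2 := vf_diff z hz
  unfold g1
  fun_prop

lemma g2_diff : Hol g2 := fun z hz => by
  have h1 := sf_diff z hz
  have h2 := DD_diff vf_diff z hz
  unfold g2
  fun_prop

lemma g1_inv : Inv 0 g1 := by
  intro a b c d h z hz
  have h1 := sf_inv a b c d h z hz
  have h2 := vf_inv a b c d h z hz
  rw [pow_zero, one_mul] at h1 h2 ⊢
  unfold g1
  rw [h1, h2]

lemma g2_inv : Inv 0 g2 := by
  intro a b c d h z hz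
  have h1 := sf_inv a b c d h z hz
  have h2 := dvf_inv a b c d h z hz
  rw [pow_zero, one_mul] at h1 h2 ⊢
  unfold g2
  rw [h1, h2]

lemma g1_W : ∀ z : ℂ, 0 < z.im → g1 (-1 / (11 * z)) = 1 * g1 z := by
  intro z hz
  unfold g1
  rw [sf_W z hz, vf_W z hz]
  ring

lemma g2_W : ∀ z : ℂ, 0 < z.im → g2 (-1 / (11 * z)) = 1 * g2 z := by
  intro z hz
  unfold g2
  rw [sf_W z hz, dvf_W z hz]
  ring

theorem g1_zero (hcp : S_CP11) (hq : S_QEXP) : ∀ z : ℂ, 0 < z.im → g1 z = 0 := by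
  obtain ⟨K, P, A, W, rK, rP, rA, rW, cP, hPW, tP, tA, tW⟩ := expansions hq
  have hid := identity_one tA tW
  rw [num 25, num 20, num 2200, num 37500, num 190000] at hid
  have hrep := ((Rep.C 25).mul (rW.pow 2)).sub (((((rA.pow 4).sub ((Rep.C 20).mul
    (Rep.X.mul (rA.pow 3)))).sub ((Rep.C 2200).mul ((Rep.X.pow 2).mul (rA.pow 2)))).sub
    ((Rep.C 37500).mul ((Rep.X.pow 3).mul rA))).sub ((Rep.C 190000).mul (Rep.X.pow 4)))
  have h0 : QV (fun z => 625 * g1 z) 0 := by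
    refine QV_zero_of_dvd (m := 4) hrep (dvd_trans (pow_dvd_pow _ (by norm_num)) hid) ?_
    intro z hz
    have h1 := sf_q rK hz
    have h2 := vf_q rK rA hz
    have hq := qq_ne z
    have h3 : Af (qq z) = 5 * qq z * sf z := by
      rw [mul_right_comm, h1]; field_simp
    have h4 : Wf (qq z) = 5 * qq z ^ 2 * vf z := by
      rw [mul_right_comm, h2]; field_simp
    rw [h3, h4]
    unfold g1
    push_cast
    ring
  refine cp_zero hcp g1_diff g1_inv ?_ g1_W
  refine (((QV.const (1 / 625)).mul h0).of_eq (iI_pos.mono fun z hz => ?_)).of_val (by simp)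
  ring

theorem g2_zero (hcp : S_CP11) (hq : S_QEXP) : ∀ z : ℂ, 0 < z.im → g2 z = 0 := by
  obtain ⟨K, P, A, W, rK, rP, rA, rW, cP, hPW, tP, tA, tW⟩ := expansions hq
  have hid := identity_two tP tA tW
  rw [num 25, num 2, num 30, num 2200, num 18750] at hid
  have hrep := ((Rep.C 25).mul (rW.theta.sub ((Rep.C 2).mul rW))).sub (rP.mul (((((Rep.C 2).mul
    (rA.pow 3)).sub ((Rep.C 30).mul (Rep.X.mul (rA.pow 2)))).sub ((Rep.C 2200).mul
    ((Rep.X.pow 2).mul rA))).sub ((Rep.C 18750).mul (Rep.X.pow 3))))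
  have h0 : QV (fun z => phi (qq z) * (125 * g2 z)) 0 := by
    refine QV_zero_of_dvd (m := 3) hrep (dvd_trans (pow_dvd_pow _ (by norm_num)) hid) ?_
    intro z hz
    have h1 := sf_q rK hz
    have h2 := dvf_q rK rA rW hz
    have hq := qq_ne z
    have h3 : Af (qq z) = 5 * qq z * sf z := by
      rw [mul_right_comm, h1]; field_simp
    push_cast
    rw [← h2, h3]
    unfold g2
    ring
  have hp : QV (fun z => phi (qq z)) 1 := by
    refine (QV.comp rP.analyticAt_zero).of_val ?_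
    unfold phi
    simp [Q_zero]
  refine cp_zero hcp g2_diff g2_inv ?_ g2_W
  refine ((((QV.const (1 / 125)).mul (hp.inv one_ne_zero)).mul h0).of_eq
    (iI_pos.mono fun z hz => ?_)).of_val (by simp)
  have := phi_ne hz
  field_simp

/-- the function `x - 16` -/
noncomputable def X1 (z : ℂ) : ℂ := (sf z ^ 2 - 2 * sf z - 46 - vf z) / 2

/-- the function `2y + 1` -/
noncomputable def RR (z : ℂ) : ℂ :=
  (sf z - 1) * vf z - (sf z ^ 3 - 3 * sf z ^ 2 - 44 * sf z - 75)

lemma X1_diff : Hol X1 := fun z hz => by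
  have h1 := sf_diff z hz
  have h2 := vf_diff z hz
  unfold X1
  fun_prop

lemma RR_diff : Hol RR := fun z hz => by
  have h1 := sf_diff z hz
  have h2 := vf_diff z hz
  unfold RR
  fun_prop

lemma X1_inv : Inv 0 X1 := by
  intro a b c d h z hz
  have h1 := sf_inv a b c d h z hz
  have h2 := vf_inv a b c d h z hz
  rw [pow_zero, one_mul] at h1 h2 ⊢
  unfold X1
  rw [h1, h2]

lemma RR_inv : Inv 0 RR := by
  intro a b c d h z hz
  have h1 := sf_inv a b c d h z hz
  have h2 := vf_inv a b c d h z hz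
  rw [pow_zero, one_mul] at h1 h2 ⊢
  unfold RR
  rw [h1, h2]

/-- the equation of the curve -/
theorem curve (hcp : S_CP11) (hq : S_QEXP) {z : ℂ} (hz : 0 < z.im) :
    RR z ^ 2 = 4 * X1 z ^ 3 + 188 * X1 z ^ 2 + 2904 * X1 z + 14641 := by
  have h1 := g1_zero hcp hq z hz
  unfold g1 at h1
  unfold RR X1
  linear_combination ((sf z - 1) ^ 2 - (3 / 2) * (sf z ^ 2 - 2 * sf z - 46) + (1 / 2) * vf z
    - 47) * h1

/-- the differential -/
theorem deriv_X1 (hcp : S_CP11) (hq : S_QEXP) {z : ℂ} (hz : 0 < z.im) :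
    deriv X1 z = 2 * Real.pi * Complex.I * ff z * RR z := by
  have h1 := (sf_diff z hz).hasDerivAt
  have h2 := (vf_diff z hz).hasDerivAt
  have h3 := ((((h1.pow 2).sub (h1.const_mul 2)).sub_const 46).sub h2).div_const 2
  have h4 := h3.deriv
  have h5 := g2_zero hcp hq z hz
  have hf := ff_ne hz
  have hpi := tpi_ne
  have e1 : deriv sf z = 2 * Real.pi * Complex.I * ff z * vf z := by
    unfold vf DD D
    field_simp
  have e2 : deriv vf z = 2 * Real.pi * Complex.I * ff z * DD vf z := by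
    unfold DD D
    field_simp
  have e3 : deriv X1 z = deriv (fun z => (sf z ^ 2 - 2 * sf z - 46 - vf z) / 2) z := rfl
  unfold g2 at h5
  have e4 : deriv (fun z => (sf z ^ 2 - 2 * sf z - 46 - vf z) / 2) z = _ := h4
  rw [e3, e4, e1, e2]
  unfold RR
  push_cast
  linear_combination (-(Real.pi * Complex.I * ff z)) * h5

/-- the values at the cusp `0` -/
lemma X1_W (hcp : S_CP11) (hq : S_QEXP) {z : ℂ} (hz : 0 < z.im) :
    X1 z * X1 (-1 / (11 * z)) = 121 * (sf z + 5) := by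
  have h1 := g1_zero hcp hq z hz
  unfold g1 at h1
  unfold X1
  rw [sf_W z hz, vf_W z hz]
  linear_combination (-1 / 4 : ℂ) * h1

lemma RR_W (hcp : S_CP11) (hq : S_QEXP) {z : ℂ} (hz : 0 < z.im) :
    X1 z * RR (-1 / (11 * z)) = 121 * X1 z - 242 * ((sf z - 1) * (sf z + 5)) := by
  have h1 := g1_zero hcp hq z hz
  unfold g1 at h1
  unfold X1 RR
  rw [sf_W z hz, vf_W z hz]
  linear_combination ((sf z - 1) / 2) * h1

end Pool.Agent.Y702.M
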