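import Pool.Agent.Y702.M.Coef

/-!
Hecke relations for the values at the rational numbers, and the coefficients of the form.
-/

set_option autoImplicit false

open Filter Topology MeasureTheory Set UpperHalfPlane MatrixGroups CongruenceSubgroup

namespace Pool.Agent.Y702.M

open Pool.Agent.W97.TW
open Pool.Agent.W97.MT (S_QEXP S_ODE S_INJ Rep RepC Q_ne Q_ne_pow num qq qq_ne norm_qq norm_qq_lt
  tt tt_ne tt_pow eta_mul eta_one iI iI_pos iI_eventually QV H_open im_mul G_mul tendsto_qq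
  hasDerivAt_qq Qq_analytic QV_zero_of_dvd G_ne z_ne hqe hinj hode exists_qq wA wA_same wA_eq
  wA_analytic const_of_deriv Qd_diff qParam_one ap affCount hsup)

lemma nhdsGT_mul {a : ℝ} (ha : 0 < a) : Tendsto (fun y : ℝ => a * y) (𝓝[>] 0) (𝓝[>] 0) := by
  refine tendsto_nhdsWithin_iff.2 ⟨?_, ?_⟩
  · have : Tendsto (fun y : ℝ => a * y) (𝓝 0) (𝓝 (a * 0)) := (continuous_const_mul a).tendsto 0
    rw [mul_zero] at this
    exact this.mono_left nhdsWithin_le_nhds
  · filter_upwards [self_mem_nhdsWithin] with y hy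
    exact mul_pos ha hy

lemma den_mul (l : ℕ) (r : ℚ) (hr : Nat.Coprime r.den 11) : Nat.Coprime ((l : ℚ) * r).den 11 := by
  refine Nat.Coprime.coprime_dvd_left ?_ hr
  have h := Rat.mul_den_dvd (l : ℚ) r
  simpa using h

lemma den_div {l : ℕ} (hl : l.Prime) (h11 : l ≠ 11) (r : ℚ) (hr : Nat.Coprime r.den 11) (b : ℕ) :
    Nat.Coprime ((r + b) / l).den 11 := by
  have hl0 : (l : ℚ) ≠ 0 := by exact_mod_cast hl.ne_zero
  have h1 : ((r + b) / l).den ∣ (r.den * l) := by
    have e : (r + b) / l = Rat.divInt (r.num + b * r.den) ((r.den * l : ℕ) : ℤ) := by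
      rw [Rat.divInt_eq_div]
      push_cast
      have h2 : (r.den : ℚ) ≠ 0 := by exact_mod_cast r.den_ne_zero
      have h3 := Rat.num_div_den r
      have h4 : r = r.num / r.den := h3.symm
      field_simp
      nth_rewrite 1 [h4]
      field_simp
    have h3 := Rat.den_dvd (r.num + b * r.den) ((r.den * l : ℕ) : ℤ)
    rw [← e] at h3
    exact_mod_cast h3
  refine Nat.Coprime.coprime_dvd_left h1 (Nat.Coprime.mul_left hr ?_)
  exact (Nat.coprime_primes hl (by norm_num)).2 h11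

section lims

variable {C : ℂ} (hC : ∀ z : ℂ, 0 < z.im → F (-1 / (11 * z)) = C - F z)
  {Λ : Submodule ℤ ℂ} (hΛ : TH940.Pers f11 (Λ : Set ℂ))
include hC hΛ

/-- the Hecke relation at the rational numbers -/
theorem J_hecke {l : ℕ} (hl : l.Prime) (h11 : l ≠ 11) (r : ℚ) (hr : Nat.Coprime r.den 11) :
    cc l * J r = J (l * r) + ∑ b ∈ Finset.range l, J ((r + b) / l) := by
  have hl0 : (0 : ℝ) < l := by exact_mod_cast hl.pos
  have hnd : ¬ l ∣ 11 := fun h => h11 ((Nat.prime_dvd_prime_iff_eq hl (by norm_num)).1 h)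
  have h1 := (J_spec hC hΛ r hr).2.const_mul (cc l)
  have h2 := ((J_spec hC hΛ (l * r) (den_mul l r hr)).2).comp (nhdsGT_mul hl0)
  have h3 : ∀ b ∈ Finset.range l, Tendsto (fun y : ℝ => F ((((r + b) / l : ℚ) : ℂ) +
      ((1 / l * y : ℝ) : ℂ) * Complex.I)) (𝓝[>] 0) (𝓝 (J ((r + b) / l))) := fun b _ =>
    ((J_spec hC hΛ ((r + b) / l) (den_div hl h11 r hr b)).2).comp (nhdsGT_mul (by positivity))
  have h4 := h2.add (tendsto_finsetSum _ h3)
  refine tendsto_nhds_unique h1 (h4.congr' ?_)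
  filter_upwards [self_mem_nhdsWithin] with y hy
  have hy0 : (0 : ℝ) < y := hy
  have him : 0 < ((r : ℂ) + y * Complex.I).im := by
    have e : ((r : ℂ)) = (((r : ℚ) : ℝ) : ℂ) := by push_cast; rfl
    rw [e]
    simpa using hy0
  have h5 := F_hecke hl him
  rw [if_neg hnd] at h5
  rw [h5, Function.comp_apply]
  congr 1
  · congr 1
    push_cast
    ring
  · refine Finset.sum_congr rfl fun b _ => ?_
    congr 1
    have : (l : ℂ) ≠ 0 := by exact_mod_cast hl.ne_zero
    push_cast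
    field_simp
    ring

/-- the value at an integer -/
theorem J_int (n : ℤ) : J n = C := by
  have h1 := (J_spec hC hΛ (n : ℚ) (by simp)).2
  have h2 : Tendsto (fun y : ℝ => F (((n : ℚ) : ℂ) + y * Complex.I)) (𝓝[>] 0) (𝓝 C) := by
    have h3 : Tendsto (fun y : ℝ => F (((1 / (11 * y) : ℝ) : ℂ) * Complex.I)) (𝓝[>] 0) (𝓝 0) := by
      have h5 : Tendsto (fun y : ℝ => 1 / (11 * y)) (𝓝[>] 0) atTop := by
        have h6 : Tendsto (fun y : ℝ => (11 : ℝ)⁻¹ * y⁻¹) (𝓝[>] 0) atTop :=
          tendsto_inv_nhdsGT_zero.const_mul_atTop (by positivity)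
        refine h6.congr fun y => ?_
        rw [one_div, mul_inv]
      exact (F_QV.tendsto.comp W_tendsto).comp h5
    have h4 := h3.const_sub C
    rw [sub_zero] at h4
    refine h4.congr' ?_
    filter_upwards [self_mem_nhdsWithin] with y hy
    have hy0 : (0 : ℝ) < y := hy
    have h7 : F (((n : ℚ) : ℂ) + y * Complex.I) = F (y * Complex.I) := by
      rw [← F_add_int (y * Complex.I) n]
      congr 1
      push_cast
      ring
    have h8 := hC (y * Complex.I) (by simpa using hy0)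
    rw [W_I hy0] at h8
    rw [h7, h8]
    ring
  exact tendsto_nhds_unique h1 h2

omit hC hΛ in
/-- periodicity -/
theorem J_add_int (r : ℚ) (n : ℤ) : J (r + n) = J r := by
  unfold J
  congr 1
  have : (fun y : ℝ => F (((r + n : ℚ) : ℂ) + y * Complex.I)) =
      fun y : ℝ => F ((r : ℂ) + y * Complex.I) := by
    ext y
    rw [← F_add_int ((r : ℂ) + y * Complex.I) n]
    congr 1
    push_cast
    ring
  rw [this]

theorem J_neg (r : ℚ) (hr : Nat.Coprime r.den 11) : J (-r) = (starRingEnd ℂ) (J r) := by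
  have h1 := (J_spec hC hΛ (-r) (by simpa using hr)).2
  have h2 := (Complex.continuous_conj.tendsto _).comp (J_spec hC hΛ r hr).2
  refine tendsto_nhds_unique h1 (h2.congr' ?_)
  filter_upwards [self_mem_nhdsWithin] with y hy
  have hy0 : (0 : ℝ) < y := hy
  have him : 0 < ((r : ℂ) + y * Complex.I).im := by
    have e : ((r : ℂ)) = (((r : ℚ) : ℝ) : ℂ) := by push_cast; rfl
    rw [e]
    simpa using hy0
  rw [Function.comp_apply, ← F_conj him]
  congr 1
  have e : (starRingEnd ℂ) (r : ℂ) = r := by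
    have e : ((r : ℂ)) = (((r : ℚ) : ℝ) : ℂ) := by push_cast; rfl
    rw [e]
    exact Complex.conj_ofReal _
  rw [map_add, map_mul, e, Complex.conj_ofReal, Complex.conj_I]
  push_cast
  ring

end lims

/-- an integer multiple of the integral is a period only if it is a multiple of five -/
lemma five_dvd {L : PeriodPair} {Op Om : ℝ} (hOp : 0 < Op)
    (hL : ∀ w : ℂ, w ∈ L.lattice ↔ ∃ a b : ℤ, 2 ∣ a - b ∧ w = a * Op + b * Om * Complex.I)
    (hOm : 0 < Om) {c : ℝ} (hc : 5 * c = 2 * Op) (n : ℤ) (hn : (n : ℂ) * c ∈ L.lattice) :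
    (5 : ℤ) ∣ n := by
  obtain ⟨a, b, hab, h⟩ := (hL _).1 hn
  have h1 := congrArg Complex.im h
  have h2 := congrArg Complex.re h
  have e1 : ((n : ℂ) * c).im = 0 := by
    rw [show ((n : ℂ) * c) = (((n : ℝ) * c : ℝ) : ℂ) by push_cast; rfl]
    exact Complex.ofReal_im _
  have e2 : ((n : ℂ) * c).re = n * c := by
    rw [show ((n : ℂ) * c) = (((n : ℝ) * c : ℝ) : ℂ) by push_cast; rfl]
    exact Complex.ofReal_re _
  have e3 : ((a : ℂ) * Op + b * Om * Complex.I) = (((a * Op : ℝ)) : ℂ) +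
    (((b * Om : ℝ)) : ℂ) * Complex.I := by push_cast; rfl
  rw [e1, e3] at h1
  rw [e2, e3] at h2
  simp at h1 h2
  have hb : b = 0 := by
    rcases h1 with h1 | h1
    · exact h1
    · exact absurd h1 hOm.ne'
  subst hb
  obtain ⟨a', ha'⟩ := hab
  have ha : a = 2 * a' := by linarith
  have h3 : (n : ℝ) * (5 * c) = 5 * (a * Op) := by rw [← h2]; ring
  rw [hc, ha] at h3
  push_cast at h3
  have h4 : (n : ℝ) = 5 * a' := by
    have : (2 * Op) * (n : ℝ) = (2 * Op) * (5 * a') := by linear_combination h3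
    exact mul_left_cancel₀ (by positivity) this
  exact ⟨a', by exact_mod_cast h4⟩

/-- the coefficients of the form and of the curve -/
theorem coef_eq (hcp : S_CP11) (hasse : S_HASSE11) (hfive : S_FIVE11) (hmin : S_MIN11)
    (hlat : S_LAT11) (hreal : S_REAL11) {l : ℕ} (hl : l.Prime) : cc l = ap E11 l := by
  obtain ⟨L, Op, Om, hOp, hOm, g2, g3, hL⟩ := hlat
  obtain ⟨K, P, A, W, rK, rP, rA, rW, cP, hPW, tP, tA, tW⟩ := expansions hqe
  obtain ⟨-, -, -, m2, m3, m5, m11, mb⟩ := hmin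
  have hcc : cc l = ((PowerSeries.coeff (l - 1) P : ℤ) : ℂ) := by
    unfold cc
    rw [coeff_f11 rP]
    obtain ⟨m, rfl⟩ : ∃ m, l = m + 1 := ⟨l - 1, by have := hl.pos; omega⟩
    rw [PowerSeries.coeff_succ_X_mul]
    rfl
  rw [hcc]
  congr 1
  by_cases l2 : l = 2
  · subst l2
    rw [tP 1 (by norm_num)]
    unfold ap; rw [m2]; rfl
  by_cases l3 : l = 3
  · subst l3
    rw [tP 2 (by norm_num)]
    unfold ap; rw [m3]; rfl
  by_cases l5 : l = 5
  · subst l5
    rw [tP 4 (by norm_num)]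
    unfold ap; rw [m5]; rfl
  by_cases l11 : l = 11
  · subst l11
    rw [tP 10 (by norm_num)]
    unfold ap; rw [m11]; rfl
  set a : ℤ := PowerSeries.coeff (l - 1) P with ha
  have h7 : 7 ≤ l := by
    have := hl.two_le
    by_contra h
    have : l = 4 ∨ l = 6 := by omega
    rcases this with rfl | rfl <;> norm_num at hl
  -- the bound
  have hb : |a| ≤ l + 1 := by
    have h1 := hsup 11 f11 ⟨UpperHalfPlane.I, by
      rw [f11_eq]; exact ff_ne UpperHalfPlane.I.im_pos⟩ l hl a (fun z => by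
        have h2 := hecke11 hl z
        rw [hcc] at h2
        rw [← h2]
        unfold Pool.Agent.W97.MT.hecke heckeT
        norm_num)
    rw [Complex.norm_intCast] at h1
    exact_mod_cast h1
  -- modulo l
  have hmod : (l : ℤ) ∣ a - ap E11 l := by
    have h1 := coeff_mod rK rP rA rW tP tA tW hcp hasse hPW hl l2 l5
    have h2 := (ZMod.intCast_eq_intCast_iff_dvd_sub _ _ _).1 h1
    have h3 := (dvd_neg (α := ℤ)).2 h2
    rwa [neg_sub] at h3
  -- modulo 5
  obtain ⟨C, hC⟩ := F_W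
  obtain ⟨c, hCc, hc⟩ := c_eq hcp L g2 g3 hreal hOp hOm hL hC
  have hΛ := pers hcp L g2 g3
  have h5A : (5 : ℤ) ∣ l + 1 - a := by
    apply five_dvd hOp hL hOm hc
    have h1 := J_hecke hC hΛ hl l11 0 (by simp)
    have h2 := J_int hC hΛ 0
    rw [mul_zero] at h1
    norm_cast at h2
    rw [h2, hcc, hCc] at h1
    have h3 : ∀ b ∈ Finset.range l, J ((0 + b) / l) - C ∈ L.lattice := fun b _ =>
      (J_spec hC hΛ _ (den_div hl l11 0 (by simp) b)).1
    have h4 := sum_mem h3
    rw [Finset.sum_sub_distrib, Finset.sum_const, Finset.card_range, nsmul_eq_mul, hCc] at h4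
    have h6 : ((l + 1 - a : ℤ) : ℂ) * c =
        -((∑ b ∈ Finset.range l, J ((0 + b) / l)) - (l : ℂ) * c) := by
      push_cast at h1 ⊢
      linear_combination (-1 : ℂ) * h1
    rw [h6]
    exact neg_mem h4
  have h5E : (5 : ℤ) ∣ l + 1 - ap E11 l := by
    have h1 := hfive l hl l5 l11
    have h2 : ((5 : ℕ) : ℤ) ∣ ((affCount E11 l + 1 : ℕ) : ℤ) := Int.natCast_dvd_natCast.2 h1
    unfold ap
    push_cast at h2
    convert h2 using 1
    ring
  have h5 : (5 : ℤ) ∣ a - ap E11 l := by omega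
  have hE : |ap E11 l| ≤ l := by
    have h1 := mb l hl
    unfold ap
    rw [abs_le]
    omega
  have hcop : IsCoprime (5 : ℤ) (l : ℤ) := by
    have h1 : Nat.Coprime 5 l := (Nat.coprime_primes (by norm_num) hl).2 (Ne.symm l5)
    exact_mod_cast Nat.isCoprime_iff_coprime.2 h1
  obtain ⟨k, hk⟩ := hcop.mul_dvd h5 hmod
  have hA' := abs_le.1 hb
  have hE' := abs_le.1 hE
  have hl7 : (7 : ℤ) ≤ l := by exact_mod_cast h7
  have hk0 : k = 0 := by
    have h1 : |a - ap E11 l| < 5 * l := by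
      rw [abs_lt]
      constructor <;> [linarith [hA'.1, hE'.2]; linarith [hA'.2, hE'.1]]
    rw [hk, abs_mul, abs_of_pos (by positivity : (0 : ℤ) < 5 * l)] at h1
    have h2 : |k| < 1 := by nlinarith [abs_nonneg k]
    exact Int.abs_lt_one_iff.1 h2
  rw [hk0, mul_zero] at hk
  linarith

end Pool.Agent.Y702.M
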