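import Pool.Agent.Y702.M.JJ

/-!
The form `η(z)² η(11z)²` has all the properties of a newform.
-/

set_option autoImplicit false

open Filter Topology MeasureTheory Set UpperHalfPlane MatrixGroups CongruenceSubgroup

namespace Pool.Agent.Y702.M

open Pool.Agent.W97.TW
open Pool.Agent.W97.MT (z_ne)

/-- the Hecke relation at `p` -/
theorem rec (p : ℕ) (hp : p.Prime) (m : ℕ) :
    cc (p * m) = cc p * cc m - (if p ∣ 11 then 0 else
        (p : ℂ) * (if p ∣ m then cc (m / p) else 0)) := by
  have h := hecke_rec f11 hp.pos (hecke11 hp) m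
  unfold B A at h
  have e : (p : ℂ) ^ ((2 : ℤ) - 1) = p := by norm_num
  rw [e] at h
  change (if p ∣ 11 then (0 : ℂ) else p) * (if p ∣ m then cc (m / p) else 0) + cc (p * m) =
    cc p * cc m at h
  rw [← h]
  split_ifs <;> ring

theorem rec_pow (p : ℕ) (hp : p.Prime) (m : ℕ) (hm : ¬ p ∣ m) (j : ℕ) :
    cc (p ^ j * m) = cc (p ^ j) * cc m := by
  have h1 := cc_one
  induction j using Nat.strong_induction_on with
  | _ j ih =>
    match j with
    | 0 => rw [pow_zero, one_mul, h1, one_mul]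
    | 1 =>
      rw [pow_one, rec p hp m, if_neg hm]
      split_ifs <;> ring
    | j + 2 =>
      have e1 : p ^ (j + 2) * m = p * (p ^ (j + 1) * m) := by ring
      have e2 : p ^ (j + 2) = p * p ^ (j + 1) := by ring
      have d1 : p ∣ p ^ (j + 1) * m := Dvd.dvd.mul_right (dvd_pow_self p (by omega)) m
      have d2 : p ∣ p ^ (j + 1) := dvd_pow_self p (by omega)
      have q1 : p ^ (j + 1) * m / p = p ^ j * m := by
        rw [show p ^ (j + 1) * m = p * (p ^ j * m) by ring, Nat.mul_div_cancel_left _ hp.pos]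
      have q2 : p ^ (j + 1) / p = p ^ j := by
        rw [show p ^ (j + 1) = p * p ^ j by ring, Nat.mul_div_cancel_left _ hp.pos]
      rw [e1, e2, rec p hp (p ^ (j + 1) * m), rec p hp (p ^ (j + 1)), if_pos d1, if_pos d2, q1, q2,
        ih (j + 1) (by omega), ih j (by omega)]
      split_ifs <;> ring

theorem mul (m n : ℕ) (h : Nat.Coprime m n) : cc (m * n) = cc m * cc n := by
  have h1 := cc_one
  induction m using Nat.strong_induction_on generalizing n with
  | _ m ih =>
    rcases Nat.eq_zero_or_pos m with rfl | hm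
    · have hn : n = 1 := by simpa using h
      subst hn
      rw [mul_one, h1, mul_one]
    by_cases hm1 : m = 1
    · subst hm1
      rw [one_mul, h1, one_mul]
    set p := m.minFac with hp
    have hpp : p.Prime := Nat.minFac_prime hm1
    obtain ⟨j, m', hm', he⟩ := Nat.exists_eq_pow_mul_and_not_dvd hm.ne' p hpp.ne_one
    have hj : j ≠ 0 := by
      rintro rfl
      rw [pow_zero, one_mul] at he
      exact hm' (he ▸ Nat.minFac_dvd m)
    have hpn : ¬ p ∣ n := by
      intro hd
      have := Nat.dvd_gcd (Nat.minFac_dvd m) hd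
      rw [h] at this
      exact hpp.one_lt.ne' (Nat.dvd_one.1 this)
    have hm'0 : 0 < m' := Nat.pos_of_ne_zero fun h0 => hm' (h0 ▸ dvd_zero p)
    have hlt : m' < m := by
      rw [he]
      have : 1 < p ^ j := Nat.one_lt_pow hj hpp.one_lt
      nlinarith
    have hc : Nat.Coprime m' n := Nat.Coprime.coprime_dvd_left (he ▸ Dvd.intro_left _ rfl) h
    have hnd : ¬ p ∣ m' * n := by
      intro hd
      rcases (Nat.Prime.dvd_mul hpp).1 hd with h2 | h2
      · exact hm' h2
      · exact hpn h2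
    rw [he, mul_assoc, rec_pow p hpp (m' * n) hnd j, rec_pow p hpp m' hm' j, ih m' hlt n hc]
    ring

theorem pow (p j : ℕ) (hp : p.Prime) : cc (p ^ (j + 2)) = cc p * cc (p ^ (j + 1)) -
      (if p ∣ 11 then 0 else (p : ℂ) * cc (p ^ j)) := by
  have e2 : p ^ (j + 2) = p * p ^ (j + 1) := by ring
  have d2 : p ∣ p ^ (j + 1) := dvd_pow_self p (by omega)
  have q2 : p ^ (j + 1) / p = p ^ j := by
    rw [show p ^ (j + 1) = p * p ^ j by ring, Nat.mul_div_cancel_left _ hp.pos]
  rw [e2, rec p hp (p ^ (j + 1)), if_pos d2, q2]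

theorem newf : W388.IsNewf 11 2 f11 1 where
  one := cc_one
  real := fun n => by
    obtain ⟨c, hc⟩ := coeff_int n
    rw [hc]
    simp
  mul := fun m n h => mul m n h
  pow := fun p j hp => by
    have h := pow p j hp
    have e : (p : ℂ) ^ ((2 : ℤ) - 1) = p := by norm_num
    rw [e]
    exact h
  sign := Or.inl rfl
  fricke := by
    intro τ τ' h
    have h0 : (τ : ℂ) ≠ 0 := z_ne τ.im_pos
    push_cast at h
    have e1 : (τ' : ℂ) = -1 / (11 * (τ : ℂ)) := by
      rw [eq_div_iff (mul_ne_zero (by norm_num) h0)]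
      exact h
    have e2 : f11 τ' = ff τ' := f11_eq τ'
    have e3 : f11 τ = ff τ := f11_eq τ
    rw [e2, e3, e1, ff_W τ.im_pos]
    have e4 : ((Real.sqrt ((11 : ℕ) : ℝ) : ℝ) : ℂ) ^ 2 = 11 := by
      rw [← Complex.ofReal_pow, Real.sq_sqrt (by positivity)]
      norm_num
    have e5 : (((Real.sqrt ((11 : ℕ) : ℝ) : ℝ) : ℂ) * (τ : ℂ) / Complex.I) ^ (2 : ℤ) =
        -(11 * (τ : ℂ) ^ 2) := by
      rw [zpow_ofNat, div_pow, mul_pow, e4, Complex.I_sq]
      ring
    rw [e5]
    push_cast
    ring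

end Pool.Agent.Y702.M
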