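import Pool.Agent.Y702.M.Ident
import Pool.Agent.W97.MT.Fin
import Pool.Agent.TH940.Cen

/-!
The primitive of the form on `X_0(11)` and the elliptic curve.
-/

set_option autoImplicit false

open Filter Topology MeasureTheory Set UpperHalfPlane MatrixGroups CongruenceSubgroup

namespace Pool.Agent.Y702.M

open Pool.Agent.W97.TW
open Pool.Agent.W97.MT (S_QEXP S_ODE S_INJ Rep RepC Q_ne Q_ne_pow num qq qq_ne norm_qq norm_qq_lt
  tt tt_ne tt_pow eta_mul eta_one iI iI_pos iI_eventually QV H_open im_mul G_mul tendsto_qq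
  hasDerivAt_qq Qq_analytic QV_zero_of_dvd G_ne z_ne hqe hinj hode exists_qq wA wA_same wA_eq
  wA_analytic const_of_deriv Qd_diff)

lemma phi_diff : DifferentiableOn ℂ phi (Metric.ball 0 1) :=
  (Q_diff.pow 2).mul ((Qd_diff 11 (by norm_num)).pow 2)

lemma phi_zero : phi 0 = 1 := by
  unfold phi
  simp [Q_zero]

lemma exists_Phi : ∃ Φ : ℂ → ℂ, Φ 0 = 0 ∧ ∀ q : ℂ, ‖q‖ < 1 → HasDerivAt Φ (phi q) q := by
  obtain ⟨g, h0, hg⟩ := phi_diff.isExactOn_ball.with_val_at 0 0
  exact ⟨g, h0, fun q hq => hg q (by simpa using hq)⟩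

/-- the primitive of `phi` -/
noncomputable def Phi : ℂ → ℂ := exists_Phi.choose

lemma Phi_zero : Phi 0 = 0 := exists_Phi.choose_spec.1

lemma Phi_deriv {q : ℂ} (hq : ‖q‖ < 1) : HasDerivAt Phi (phi q) q := exists_Phi.choose_spec.2 q hq

lemma Phi_diff : DifferentiableOn ℂ Phi (Metric.ball 0 1) := fun q hq =>
  (Phi_deriv (by simpa using hq)).differentiableAt.differentiableWithinAt

lemma Phi_analytic : AnalyticAt ℂ Phi 0 := Phi_diff.analyticAt (Metric.ball_mem_nhds _ one_pos)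

/-- the primitive of `2πi ff` -/
noncomputable def F (z : ℂ) : ℂ := Phi (qq z)

lemma F_deriv {z : ℂ} (hz : 0 < z.im) : HasDerivAt F (2 * Real.pi * Complex.I * ff z) z := by
  refine ((Phi_deriv (norm_qq_lt hz)).comp z (hasDerivAt_qq z)).congr_deriv ?_
  rw [ff_q]; ring

lemma F_QV : QV F 0 := (QV.comp Phi_analytic).of_val Phi_zero

lemma F_diff : Hol F := fun _ hz => (F_deriv hz).differentiableAt

lemma f11_eq (z : ℍ) : f11 z = ff z := by
  rw [f11_apply]
  rfl

/-- the two primitives agree -/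
lemma prim_eq {z : ℂ} (hz : 0 < z.im) : TH940.prim f11 z = F z := by
  obtain ⟨C, hC⟩ := const_of_deriv (g := fun z => TH940.prim f11 z - F z) fun z hz => by
    have e1 := TH940.prim_deriv f11 ⟨z, hz⟩
    have e2 := e1.sub (F_deriv hz)
    refine e2.congr_deriv ?_
    have e3 : f11 ⟨z, hz⟩ = ff z := f11_eq ⟨z, hz⟩
    rw [e3]
    ring
  have h1 := TH940.prim_line f11 0
  have h2 : Tendsto (fun T : ℝ => F (((0 : ℝ) : ℂ) + (T : ℂ) * Complex.I)) atTop (𝓝 0) := by
    refine F_QV.tendsto.comp ?_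
    unfold iI
    rw [tendsto_comap_iff]
    refine tendsto_id.congr fun t => ?_
    simp
  have h3 := h1.sub h2
  rw [sub_zero] at h3
  have h4 : Tendsto (fun T : ℝ => TH940.prim f11 (((0 : ℝ) : ℂ) + (T : ℂ) * Complex.I) -
      F (((0 : ℝ) : ℂ) + (T : ℂ) * Complex.I)) atTop (𝓝 C) := by
    refine tendsto_const_nhds.congr' ?_
    filter_upwards [eventually_gt_atTop (0 : ℝ)] with T hT
    rw [← hC (((0 : ℝ) : ℂ) + (T : ℂ) * Complex.I) (by simpa using hT)]
  have h5 := tendsto_nhds_unique h4 h3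
  have h6 := hC z hz
  rw [h5] at h6
  exact sub_eq_zero.1 h6

/-- the additive constants for `Γ_0(11)` -/
lemma F_gamma {a b c d : ℤ} (h : a * d - b * (11 * c) = 1) :
    ∃ p : ℂ, ∀ z : ℂ, 0 < z.im → F ((a * z + b) / (11 * c * z + d)) = F z + p := by
  obtain ⟨C, hC⟩ := const_of_deriv (g := fun z => F ((a * z + b) / (11 * c * z + d)) - F z)
    fun z hz => by
      have h2 := ((F_deriv (G11_gamma h hz).1).comp z (hasDerivAt_gamma h hz)).sub (F_deriv hz)
      refine h2.congr_deriv ?_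
      have h0 := (G11_gamma h hz).2.1
      rw [ff_gamma h hz]
      field_simp
      ring
  exact ⟨C, fun z hz => by linear_combination hC z hz⟩

/-- the Fricke involution -/
lemma F_W : ∃ C : ℂ, ∀ z : ℂ, 0 < z.im → F (-1 / (11 * z)) = C - F z := by
  obtain ⟨C, hC⟩ := const_of_deriv (g := fun z => F (-1 / (11 * z)) + F z) fun z hz => by
    have h2 := ((F_deriv (W_pos hz)).comp z (hasDerivAt_W hz)).add (F_deriv hz)
    refine h2.congr_deriv ?_
    have h0 := z_ne hz
    rw [ff_W hz]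
    field_simp
    ring
  exact ⟨C, fun z hz => by linear_combination hC z hz⟩

/-- the expansion of `X1` -/
noncomputable def xi (q : ℂ) : ℂ := (Af q ^ 2 - 10 * (q * Af q) - 1150 * q ^ 2 - 5 * Wf q) / 50

section exps

variable {K P A W : PowerSeries ℤ} (rK : Rep kf K) (rP : Rep phi P) (rA : Rep Af A) (rW : Rep Wf W)
  (tA : Pool.Agent.W97.MT.Tr A lA) (tW : Pool.Agent.W97.MT.Tr W lW)

include rK rA in
lemma X1_q {z : ℂ} (hz : 0 < z.im) : X1 z = xi (qq z) / qq z ^ 2 := by
  have h1 := sf_q rK hz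
  have h2 := vf_q rK rA hz
  have hq := qq_ne z
  have h3 : Af (qq z) = 5 * qq z * sf z := by
    rw [mul_right_comm, h1]; field_simp
  have h4 : Wf (qq z) = 5 * qq z ^ 2 * vf z := by
    rw [mul_right_comm, h2]; field_simp
  unfold xi X1
  rw [h3, h4]
  field_simp
  ring

include rA rW in
lemma xi_diffAt {q : ℂ} (hq : ‖q‖ < 1) : DifferentiableAt ℂ xi q := by
  have hm := Metric.isOpen_ball.mem_nhds (show q ∈ Metric.ball (0 : ℂ) 1 by simpa using hq)
  have h1 : DifferentiableAt ℂ Af q := (RepC.differentiableOn rA).differentiableAt hm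
  have h2 : DifferentiableAt ℂ Wf q := (RepC.differentiableOn rW).differentiableAt hm
  unfold xi
  fun_prop

include rA rW in
lemma xi_analytic : AnalyticAt ℂ xi 0 := by
  have : DifferentiableOn ℂ xi (Metric.ball 0 1) := fun q hq =>
    (xi_diffAt rA rW (by simpa using hq)).differentiableWithinAt
  exact this.analyticAt (Metric.ball_mem_nhds _ one_pos)

lemma rep_zero {h : ℂ → ℂ} {V : PowerSeries ℤ} (r : Rep h V) :
    h 0 = ((PowerSeries.coeff 0 V : ℤ) : ℂ) := by
  have h1 := r 0 (by simp)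
  have h2 := hasSum_single (f := fun n : ℕ => PowerSeries.coeff n
    (PowerSeries.map (Int.castRingHom ℂ) V) * (0 : ℂ) ^ n) 0 (fun n hn => by simp [hn])
  have h3 := h1.unique h2
  simpa using h3

include rA rW tA tW in
lemma xi_zero : xi 0 = 1 := by
  have h1 := rep_zero rA
  have h2 := rep_zero rW
  rw [tA 0 (by norm_num)] at h1
  rw [tW 0 (by norm_num)] at h2
  unfold xi
  rw [h1, h2]
  norm_num [lA, lW]

include rK rA rW in
/-- the differential equation in `q` -/
lemma q_deriv (hcp : S_CP11) {z : ℂ} (hz : 0 < z.im) :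
    qq z * deriv (fun t => xi t / t ^ 2) (qq z) = qq z * phi (qq z) * RR z := by
  have hq0 := qq_ne z
  have hd : DifferentiableAt ℂ (fun t => xi t / t ^ 2) (qq z) :=
    (xi_diffAt rA rW (norm_qq_lt hz)).div (by fun_prop) (pow_ne_zero 2 hq0)
  have h1 := hd.hasDerivAt.comp z (hasDerivAt_qq z)
  have h2 : X1 =ᶠ[𝓝 z] (fun t => xi t / t ^ 2) ∘ qq := by
    filter_upwards [H_open.mem_nhds hz] with w hw
    exact X1_q rK rA hw
  have h3 := (h1.congr_of_eventuallyEq h2).deriv
  rw [deriv_X1 hcp hqe hz, ff_q] at h3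
  have h4 : (2 * Real.pi * Complex.I) * (qq z * phi (qq z) * RR z) =
    (2 * Real.pi * Complex.I) * (qq z * deriv (fun t => xi t / t ^ 2) (qq z)) := by
    linear_combination h3
  exact (mul_left_cancel₀ tpi_ne h4).symm

end exps

section lattice

variable (hcp : S_CP11) (L : PeriodPair) (g2 : L.g₂ = 124 / 3) (g3 : L.g₃ = 2501 / 27)
include hcp g2 g3

lemma near_inf : ∀ᶠ z in iI, F z ∉ L.lattice ∧ L.weierstrassP (F z) = X1 z + 47 / 3 := by
  obtain ⟨K, P, A, W, rK, rP, rA, rW, cP, hPW, tP, tA, tW⟩ := expansions hqe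
  have hα : AnalyticAt ℂ (fun q => xi q + 47 / 3 * q ^ 2) 0 := by
    have := xi_analytic rA rW
    fun_prop
  have h := hode L Phi (fun q => xi q + 47 / 3 * q ^ 2) Phi_analytic hα Phi_zero
    (by rw [(Phi_deriv (by simp : ‖(0 : ℂ)‖ < 1)).deriv, phi_zero])
    (by simp [xi_zero rA rW tA tW]) ?_
  · rw [eventually_nhdsWithin_iff] at h
    have h1 := tendsto_qq.eventually h
    filter_upwards [h1, iI_pos] with z hz hp
    obtain ⟨h2, h3⟩ := hz (qq_ne z)
    refine ⟨h2, h3.trans ?_⟩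
    rw [X1_q rK rA hp]
    have := qq_ne z
    field_simp
  · rw [eventually_nhdsWithin_iff]
    filter_upwards [Metric.ball_mem_nhds (0 : ℂ) one_pos] with q hq1 hq0
    have hq1' : ‖q‖ < 1 := by simpa using hq1
    have hq0' : q ≠ 0 := hq0
    obtain ⟨z, hz, rfl⟩ := exists_qq hq1' hq0'
    have e : (fun t => (xi t + 47 / 3 * t ^ 2) / t ^ 2) =ᶠ[𝓝 (qq z)]
        (fun t => xi t / t ^ 2 + 47 / 3) := by
      filter_upwards [isOpen_compl_singleton.mem_nhds hq0'] with t ht
      have ht' : t ≠ 0 := ht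
      field_simp
    rw [e.deriv_eq, deriv_add_const, q_deriv rK rA rW hcp hz, (Phi_deriv hq1').deriv]
    have h1 := curve hcp hqe hz
    have h2 : (xi (qq z) + 47 / 3 * qq z ^ 2) / qq z ^ 2 = X1 z + 47 / 3 := by
      rw [X1_q rK rA hz]; field_simp
    rw [h2, g2, g3]
    linear_combination (qq z * phi (qq z)) ^ 2 * h1

omit hcp g2 g3 in
lemma F_cont : ContinuousOn F {z : ℂ | 0 < z.im} := fun z hz =>
  (F_diff z hz).continuousAt.continuousWithinAt

omit hcp g2 g3 in
lemma F_analytic {z : ℂ} (hz : 0 < z.im) : AnalyticAt ℂ F z :=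
  F_diff.on.analyticAt (H_open.mem_nhds hz)

omit hcp g2 g3 in
lemma X1_analytic {z : ℂ} (hz : 0 < z.im) : AnalyticAt ℂ X1 z :=
  X1_diff.on.analyticAt (H_open.mem_nhds hz)

/-- the parametrisation -/
theorem wp_F : ∀ z : ℂ, 0 < z.im →
    F z ∉ L.lattice ∧ L.weierstrassP (F z) = X1 z + 47 / 3 := by
  set V : Set ℂ := {z : ℂ | 0 < z.im} ∩
    {z : ℂ | ∀ᶠ w in 𝓝 z, F w ∉ L.lattice ∧ L.weierstrassP (F w) = X1 w + 47 / 3} with hV
  have hVo : IsOpen V := H_open.inter isOpen_setOfPred_eventually_nhds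
  have hne : ({z : ℂ | 0 < z.im} ∩ V).Nonempty := by
    obtain ⟨T, hT, h1⟩ := iI_eventually.1 (near_inf hcp L g2 g3)
    have him : 0 < (((T + 1 : ℝ) : ℂ) * Complex.I).im := by simp; linarith
    refine ⟨((T + 1 : ℝ) : ℂ) * Complex.I, him, him, ?_⟩
    have : {w : ℂ | T < w.im} ∈ 𝓝 (((T + 1 : ℝ) : ℂ) * Complex.I) :=
      (isOpen_lt continuous_const Complex.continuous_im).mem_nhds (by simp)
    filter_upwards [this] with w hw
    exact h1 w hw
  have hcl : closure V ∩ {z : ℂ | 0 < z.im} ⊆ V := by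
    rintro z0 ⟨hz0, him⟩
    have him' : 0 < z0.im := him
    refine ⟨him, ?_⟩
    by_cases hl : F z0 ∈ L.lattice
    · exfalso
      set O : Set ℂ := {z : ℂ | 0 < z.im} ∩ F ⁻¹' (((L.lattice : Set ℂ) \ {F z0})ᶜ) with hO
      have hOo : IsOpen O := F_cont.isOpen_inter_preimage H_open L.isOpen_compl_lattice_sdiff
      have hz0O : z0 ∈ O := ⟨him, by simp⟩
      obtain ⟨ε, hε, hball⟩ := Metric.isOpen_iff.1 hOo z0 hz0O
      obtain ⟨v, hvB, hvV⟩ := mem_closure_iff.1 hz0 _ Metric.isOpen_ball (Metric.mem_ball_self hε)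
      have hA : AnalyticOnNhd ℂ (fun w => wA L (F z0) (F w)) (Metric.ball z0 ε) := fun w hw =>
        (wA_analytic L (F z0) (hball hw).2).fun_comp (F_analytic (hball hw).1)
      have hB : AnalyticOnNhd ℂ (fun w => (F w - F z0) ^ 2 * (X1 w + 47 / 3)) (Metric.ball z0 ε) :=
        fun w hw => by
          have h1 := F_analytic (hball hw).1
          have h2 := X1_analytic (hball hw).1
          fun_prop
      have heq : (fun w => wA L (F z0) (F w)) =ᶠ[𝓝 v] fun w => (F w - F z0) ^ 2 * (X1 w + 47 / 3) := by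
        filter_upwards [hvV.2] with w hw
        rw [wA_eq L hl (fun h => hw.1 (by rw [h]; exact hl)), hw.2]
      have h3 := hA.eqOn_of_preconnected_of_eventuallyEq hB
        (convex_ball z0 ε).isPreconnected hvB heq (Metric.mem_ball_self hε)
      simp only [wA_same, sub_self] at h3
      norm_num at h3
    · set O : Set ℂ := {z : ℂ | 0 < z.im} ∩ F ⁻¹' ((L.lattice : Set ℂ)ᶜ) with hO
      have hOo : IsOpen O := F_cont.isOpen_inter_preimage H_open L.isClosed_lattice.isOpen_compl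
      have hz0O : z0 ∈ O := ⟨him, hl⟩
      obtain ⟨ε, hε, hball⟩ := Metric.isOpen_iff.1 hOo z0 hz0O
      obtain ⟨v, hvB, hvV⟩ := mem_closure_iff.1 hz0 _ Metric.isOpen_ball (Metric.mem_ball_self hε)
      have hA : AnalyticOnNhd ℂ (fun w => L.weierstrassP (F w)) (Metric.ball z0 ε) := fun w hw =>
        (L.analyticOnNhd_weierstrassP (F w) (hball hw).2).fun_comp (F_analytic (hball hw).1)
      have hB : AnalyticOnNhd ℂ (fun w => X1 w + 47 / 3) (Metric.ball z0 ε) :=
        fun w hw => by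
          have h2 := X1_analytic (hball hw).1
          fun_prop
      have heq : (fun w => L.weierstrassP (F w)) =ᶠ[𝓝 v] fun w => X1 w + 47 / 3 := by
        filter_upwards [hvV.2] with w hw
        exact hw.2
      have h3 := hA.eqOn_of_preconnected_of_eventuallyEq hB
        (convex_ball z0 ε).isPreconnected hvB heq
      filter_upwards [Metric.ball_mem_nhds z0 hε] with w hw
      exact ⟨(hball hw).2, h3 hw⟩
  have hsub := (convex_halfSpace_im_gt 0).isPreconnected.subset_of_closure_inter_subset hVo hne hcl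
  intro z hz
  exact (hsub hz).2.self_of_nhds

/-- the periods are in the lattice -/
theorem period_mem {a b c d : ℤ} (h : a * d - b * (11 * c) = 1) {p : ℂ}
    (hp : ∀ z : ℂ, 0 < z.im → F ((a * z + b) / (11 * c * z + d)) = F z + p) :
    p ∈ L.lattice := by
  have hw := wp_F hcp L g2 g3
  by_contra hpL
  have h1 : ∀ z : ℂ, 0 < z.im → 2 * F z + p ∈ L.lattice := by
    intro z hz
    have hm := (G11_gamma h hz).1
    obtain ⟨e1, e2⟩ := hw z hz
    obtain ⟨e3, e4⟩ := hw _ hm
    have e5 := X1_inv a b c d h z hz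
    rw [pow_zero, one_mul] at e5
    rw [e5, ← e2] at e4
    rw [hp z hz] at e3 e4
    rcases hinj L _ _ e3 e1 e4 with h5 | h5
    · exact absurd (by simpa using h5) hpL
    · have : F z + p + F z = 2 * F z + p := by ring
      rwa [this] at h5
  have h2 : Tendsto (fun z => 2 * F z + p) iI (𝓝 (2 * 0 + p)) :=
    (F_QV.tendsto.const_mul 2).add_const p
  have h3 := L.isClosed_lattice.mem_of_tendsto h2 (iI_pos.mono fun z hz => h1 z hz)
  apply hpL
  simpa using h3

/-- the periods -/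
theorem pers : TH940.Pers f11 (L.lattice : Set ℂ) := by
  intro γ hγ
  obtain ⟨a, b, c, d, hd, rfl⟩ := exists_mkSL γ
  rw [mkSL_mem] at hγ
  obtain ⟨c, rfl⟩ := hγ
  have h' : a * d - b * (11 * c) = 1 := by push_cast at hd; linarith
  obtain ⟨p, hp⟩ := F_gamma h'
  refine ⟨p, period_mem hcp L g2 g3 h' hp, fun z => ?_⟩
  rw [prim_eq (z.im_pos), prim_eq ((mkSL a b (((11 : ℕ) : ℤ) * c) d hd • z : ℍ).im_pos), mkSL_smul]
  push_cast
  exact hp z z.im_pos

/-- the derivative of the parametrisation -/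
theorem wp_F' {z : ℂ} (hz : 0 < z.im) : L.derivWeierstrassP (F z) = RR z := by
  have hw := wp_F hcp L g2 g3
  obtain ⟨e1, e2⟩ := hw z hz
  have h1 : HasDerivAt L.weierstrassP (L.derivWeierstrassP (F z)) (F z) := by
    have h2 := (L.analyticOnNhd_weierstrassP (F z) e1).differentiableAt.hasDerivAt
    rwa [L.deriv_weierstrassP] at h2
  have h2 := h1.comp z (F_deriv hz)
  have h3 : L.weierstrassP ∘ F =ᶠ[𝓝 z] fun w => X1 w + 47 / 3 := by
    filter_upwards [H_open.mem_nhds hz] with w hw'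
    exact (hw w hw').2
  have h4 := (h2.congr_of_eventuallyEq h3.symm).deriv
  rw [deriv_add_const, deriv_X1 hcp hqe hz] at h4
  have h5 : (2 * Real.pi * Complex.I * ff z) ≠ 0 := mul_ne_zero tpi_ne (ff_ne hz)
  apply mul_left_cancel₀ h5
  linear_combination (-1 : ℂ) * h4

end lattice

end Pool.Agent.Y702.M
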