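import Pool.Agent.Y702.M.Prim

/-!
The integral from `0` to `i∞` of the form on `X_0(11)`.
-/

set_option autoImplicit false

open Filter Topology MeasureTheory Set UpperHalfPlane MatrixGroups CongruenceSubgroup

namespace Pool.Agent.Y702.M

open Pool.Agent.W97.TW
open Pool.Agent.W97.MT (S_QEXP S_ODE S_INJ Rep RepC Q_ne Q_ne_pow num qq qq_ne norm_qq norm_qq_lt
  tt tt_ne tt_pow eta_mul eta_one iI iI_pos iI_eventually QV H_open im_mul G_mul tendsto_qq
  hasDerivAt_qq Qq_analytic QV_zero_of_dvd G_ne z_ne hqe hinj hode exists_qq wA wA_same wA_eq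
  wA_analytic const_of_deriv Qd_diff qParam_one)

lemma coeff_f11 {P : PowerSeries ℤ} (rP : Rep phi P) (n : ℕ) : (qExpansion 1 f11).coeff n =
    ((PowerSeries.coeff n (PowerSeries.X * P) : ℤ) : ℂ) := by
  have h1 := ModularFormClass.qExpansion_coeff_unique
    (Γ := (Gamma0 11 : Subgroup (GL (Fin 2) ℝ))) (k := 2)
    (c := fun n => ((PowerSeries.coeff n (PowerSeries.X * P) : ℤ) : ℂ)) one_pos one_mem0
    (f := f11) (fun τ => by
      have h2 : HasSum (fun n : ℕ => PowerSeries.coeff n (PowerSeries.map (Int.castRingHom ℂ)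
        (PowerSeries.X * P)) * qq τ ^ n) (qq τ * phi (qq τ)) :=
          (Rep.X.mul rP) (qq τ) (norm_qq_lt τ.im_pos)
      simp only [PowerSeries.coeff_map, eq_intCast] at h2
      rw [f11_eq, ff_q]
      have h3 : Function.Periodic.qParam 1 (τ : ℂ) = qq τ := qParam_one τ
      rw [h3]
      simpa only [smul_eq_mul] using h2) n
  exact h1.symm

lemma coeff_int (n : ℕ) : ∃ c : ℤ, (qExpansion 1 f11).coeff n = (c : ℂ) := by
  obtain ⟨K, P, A, W, rK, rP, -⟩ := expansions hqe
  exact ⟨_, coeff_f11 rP n⟩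

lemma coeff_conj (n : ℕ) : (starRingEnd ℂ) ((qExpansion 1 f11).coeff n) =
    (qExpansion 1 f11).coeff n := by
  obtain ⟨c, hc⟩ := coeff_int n
  rw [hc]
  exact map_intCast _ _

lemma F_conj {z : ℂ} (hz : 0 < z.im) : F (-(starRingEnd ℂ) z) = (starRingEnd ℂ) (F z) := by
  rw [← prim_eq hz, ← prim_eq (by simpa using hz)]
  unfold TH940.prim
  rw [Complex.conj_tsum]
  refine tsum_congr fun n => ?_
  rw [map_mul, map_div₀, coeff_conj, Complex.conj_natCast, ← Complex.exp_conj]
  congr 2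
  simp only [map_mul, Complex.conj_I, Complex.conj_ofReal, map_ofNat, Complex.conj_natCast]
  ring

lemma Q_conj {q : ℂ} (hq : ‖q‖ < 1) : Q ((starRingEnd ℂ) q) = (starRingEnd ℂ) (Q q) := by
  obtain ⟨φ, h1, hr, -⟩ := hqe
  have h2 := hr ((starRingEnd ℂ) q) (by simpa using hq)
  have h3 := (hr q hq).map (starRingEnd ℂ) Complex.continuous_conj
  unfold Q
  refine h2.unique (h3.congr_fun ?_ |> fun x => x)
  intro n
  simp only [Function.comp_apply, map_mul, map_pow]
  congr 1
  exact (map_intCast (starRingEnd ℂ) _).symm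

lemma Q_real {x : ℝ} (h0 : 0 < x) (h1 : x < 1) : ∃ r : ℝ, r ≠ 0 ∧ Q (x : ℂ) = r := by
  have hx : ‖(x : ℂ)‖ < 1 := by
    rw [Complex.norm_real, Real.norm_eq_abs, abs_of_pos h0]; exact h1
  have h2 := Q_conj hx
  rw [Complex.conj_ofReal] at h2
  obtain ⟨r, hr⟩ := Complex.conj_eq_iff_real.1 h2.symm
  refine ⟨r, ?_, hr⟩
  rintro rfl
  exact Q_ne hx (by rw [hr]; simp)

lemma qq_I (y : ℝ) : qq (y * Complex.I) = ((Real.exp (-(2 * Real.pi * y)) : ℝ) : ℂ) := by
  unfold qq
  rw [Complex.ofReal_exp]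
  congr 1
  push_cast
  linear_combination (2 * Real.pi * y : ℂ) * Complex.I_mul_I

lemma ff_pos {y : ℝ} (hy : 0 < y) : ∃ r : ℝ, 0 < r ∧ ff (y * Complex.I) = r := by
  have hpi := Real.pi_pos
  set x := Real.exp (-(2 * Real.pi * y)) with hx
  have h0 : 0 < x := Real.exp_pos _
  have h1 : x < 1 := by
    rw [hx, Real.exp_lt_one_iff]
    have : 0 < 2 * Real.pi * y := by positivity
    linarith
  obtain ⟨r, hr0, hr⟩ := Q_real h0 h1
  obtain ⟨s, hs0, hs⟩ := Q_real (pow_pos h0 11) (pow_lt_one₀ h0.le h1 (by norm_num))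
  refine ⟨x * (r ^ 2 * s ^ 2), by positivity, ?_⟩
  rw [ff_q, qq_I, ← hx]
  unfold phi
  rw [hr]
  have : ((x : ℂ)) ^ 11 = ((x ^ 11 : ℝ) : ℂ) := by push_cast; rfl
  rw [this, hs]
  push_cast
  ring

/-- the primitive on the imaginary axis -/
noncomputable def gr (y : ℝ) : ℝ := (F (y * Complex.I)).re

lemma F_I {y : ℝ} (hy : 0 < y) : F (y * Complex.I) = gr y := by
  have h1 := F_conj (z := y * Complex.I) (by simpa using hy)
  have h2 : -(starRingEnd ℂ) ((y : ℂ) * Complex.I) = y * Complex.I := by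
    rw [map_mul, Complex.conj_ofReal, Complex.conj_I]; ring
  rw [h2] at h1
  obtain ⟨r, hr⟩ := Complex.conj_eq_iff_real.1 h1.symm
  unfold gr
  rw [hr]
  simp

lemma gr_deriv {y : ℝ} (hy : 0 < y) : ∃ r : ℝ, 0 < r ∧ HasDerivAt gr (-(2 * Real.pi * r)) y := by
  obtain ⟨r, hr0, hr⟩ := ff_pos hy
  refine ⟨r, hr0, ?_⟩
  have h1 : HasDerivAt (fun t : ℝ => (t : ℂ) * Complex.I) Complex.I y := by
    have := (Complex.ofRealCLM.hasDerivAt (x := y)).mul_const Complex.I
    simpa using this
  have h2 : HasDerivAt F _ ((y : ℂ) * Complex.I) := F_deriv (by simpa using hy)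
  have h3 := h2.comp y h1
  have h4 := (Complex.reCLM.hasFDerivAt.comp_hasDerivAt y h3)
  refine (h4.congr_deriv ?_)
  rw [hr]
  have h5 : (2 * (Real.pi : ℂ) * Complex.I * (r : ℂ) * Complex.I) = ((-(2 * Real.pi * r) : ℝ) : ℂ) := by
    push_cast
    linear_combination (2 * Real.pi * r : ℂ) * Complex.I_mul_I
  rw [h5]
  simp

lemma gr_cont : ContinuousOn gr (Ioi 0) := fun y hy => by
  obtain ⟨r, -, hr⟩ := gr_deriv (y := y) hy
  exact hr.continuousAt.continuousWithinAt

lemma gr_anti : StrictAntiOn gr (Ioi 0) := by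
  refine strictAntiOn_of_deriv_neg (convex_Ioi 0) gr_cont fun y hy => ?_
  rw [interior_Ioi] at hy
  obtain ⟨r, hr0, hr⟩ := gr_deriv (y := y) hy
  rw [hr.deriv]
  have hpi := Real.pi_pos
  have : 0 < 2 * Real.pi * r := by positivity
  linarith

lemma gr_inf : Tendsto gr atTop (𝓝 0) := by
  have h2 : Tendsto (fun T : ℝ => F ((T : ℂ) * Complex.I)) atTop (𝓝 0) := by
    refine F_QV.tendsto.comp ?_
    unfold iI
    rw [tendsto_comap_iff]
    refine tendsto_id.congr fun t => ?_
    simp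
  exact (Complex.continuous_re.tendsto 0).comp h2

lemma gr_pos {y : ℝ} (hy : 0 < y) : 0 < gr y := by
  have h1 : gr (y + 1) < gr y := gr_anti hy (by simp; linarith) (by linarith)
  have h2 : 0 ≤ gr (y + 1) := by
    refine le_of_tendsto gr_inf ?_
    filter_upwards [eventually_gt_atTop (y + 1)] with t ht
    exact (gr_anti (by simp; linarith) (by simp; linarith) ht).le
  linarith

/-- the limits at the cusp `0` -/
lemma W_tendsto : Tendsto (fun y : ℝ => (y : ℂ) * Complex.I) atTop iI := by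
  unfold iI
  rw [tendsto_comap_iff]
  refine tendsto_id.congr fun t => ?_
  simp

lemma W_I {y : ℝ} (hy : 0 < y) :
    (-1 / (11 * (y * Complex.I)) : ℂ) = ((1 / (11 * y) : ℝ) : ℂ) * Complex.I := by
  have h1 : (y : ℂ) ≠ 0 := by exact_mod_cast hy.ne'
  have h2 := Complex.I_ne_zero
  push_cast
  field_simp
  linear_combination (-1 : ℂ) * Complex.I_sq

section value

variable (hcp : S_CP11) (L : PeriodPair) (g2 : L.g₂ = 124 / 3) (g3 : L.g₃ = 2501 / 27)
include hcp g2 g3

/-- the values of the functions at the cusp `0` -/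
lemma cusp_lim : Tendsto (fun z => X1 (-1 / (11 * z))) iI (𝓝 0) ∧
    Tendsto (fun z => RR (-1 / (11 * z))) iI (𝓝 (-121)) := by
  obtain ⟨K, P, A, W, rK, rP, rA, rW, cP, hPW, tP, tA, tW⟩ := expansions hqe
  have hA : QV (fun z => Af (qq z)) 5 := by
    refine (QV.comp rA.analyticAt_zero).of_val ?_
    rw [rep_zero rA, tA 0 (by norm_num)]
    norm_num [lA]
  have hxi : QV (fun z => xi (qq z)) 1 := (QV.comp (xi_analytic rA rW)).of_val
    (xi_zero rA rW tA tW)
  have e1 : ∀ z : ℂ, 0 < z.im → 5 * qq z * sf z = Af (qq z) := by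
    intro z hz
    have h1 := sf_q rK hz
    have hq := qq_ne z
    rw [mul_right_comm, h1]; field_simp
  have e2 : ∀ z : ℂ, 0 < z.im → qq z ^ 2 * X1 z = xi (qq z) := by
    intro z hz
    rw [X1_q rK rA hz]
    have hq := qq_ne z
    field_simp
  -- 1 / X1 in terms of q
  have hx0 : ∀ᶠ z in iI, xi (qq z) ≠ 0 := by
    have := hxi.tendsto.eventually_ne one_ne_zero
    exact this
  have k1 : QV (fun z => X1 (-1 / (11 * z))) 0 := by
    refine ((((QV.const 121).mul ((QV.qq'.mul hA).add (((QV.const 25).mul (QV.qq'.pow 2))))).mul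
      ((QV.const (1 / 5)).mul (hxi.inv one_ne_zero))).of_eq ?_).of_val (by norm_num)
    filter_upwards [iI_pos, hx0] with z hz hx
    have h1 := X1_W hcp hqe hz
    have h2 := e1 z hz
    have h3 := e2 z hz
    have hq := qq_ne z
    have hX : X1 z ≠ 0 := by
      intro h0
      rw [h0, mul_zero] at h3
      exact hx h3.symm
    rw [← h2, ← h3]
    generalize X1 (-1 / (11 * z)) = u at h1 ⊢
    field_simp
    linear_combination 5 * h1
  have k2 : QV (fun z => RR (-1 / (11 * z))) (-121) := by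
    refine (((QV.const 121).sub (((QV.const 242).mul ((hA.sub ((QV.const 5).mul QV.qq')).mul
      (hA.add ((QV.const 25).mul QV.qq')))).mul ((QV.const (1 / 25)).mul
      (hxi.inv one_ne_zero)))).of_eq ?_).of_val (by norm_num)
    filter_upwards [iI_pos, hx0] with z hz hx
    have h1 := RR_W hcp hqe hz
    have h2 := e1 z hz
    have h3 := e2 z hz
    have hq := qq_ne z
    have hX : X1 z ≠ 0 := by
      intro h0
      rw [h0, mul_zero] at h3
      exact hx h3.symm
    rw [← h2, ← h3]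
    generalize RR (-1 / (11 * z)) = u at h1 ⊢
    field_simp
    linear_combination 25 * h1
  exact ⟨k1.tendsto, k2.tendsto⟩

/-- the value of the integral -/
theorem c_value {C : ℂ} (hC : ∀ z : ℂ, 0 < z.im → F (-1 / (11 * z)) = C - F z) :
    C ∉ L.lattice ∧ L.weierstrassP C = 47 / 3 ∧ L.derivWeierstrassP C = -121 := by
  have hw := wp_F hcp L g2 g3
  obtain ⟨k1, k2⟩ := cusp_lim hcp L g2 g3
  have hlim : Tendsto (fun z => F (-1 / (11 * z))) iI (𝓝 C) := by
    have h1 := F_QV.tendsto.const_sub C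
    rw [sub_zero] at h1
    refine h1.congr' ?_
    filter_upwards [iI_pos] with z hz
    rw [hC z hz]
  have hX : Tendsto (fun z => X1 (-1 / (11 * z)) + 47 / 3) iI (𝓝 (0 + 47 / 3)) := k1.add_const _
  have hCL : C ∉ L.lattice := by
    intro hCL
    have h1 : Tendsto (fun z => wA L C (F (-1 / (11 * z)))) iI (𝓝 (wA L C C)) :=
      (wA_analytic L C (by simp)).continuousAt.tendsto.comp hlim
    rw [wA_same] at h1
    have h2 : Tendsto (fun z => (F (-1 / (11 * z)) - C) ^ 2 * (X1 (-1 / (11 * z)) + 47 / 3)) iI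
        (𝓝 ((C - C) ^ 2 * (0 + 47 / 3))) := ((hlim.sub_const C).pow 2).mul hX
    have h3 : (fun z => wA L C (F (-1 / (11 * z)))) =ᶠ[iI]
        fun z => (F (-1 / (11 * z)) - C) ^ 2 * (X1 (-1 / (11 * z)) + 47 / 3) := by
      filter_upwards [iI_pos] with z hz
      obtain ⟨e1, e2⟩ := hw _ (W_pos hz)
      rw [wA_eq L hCL (fun h => e1 (by rw [h]; exact hCL)), e2]
    have h4 := tendsto_nhds_unique (h1.congr' h3) h2
    norm_num at h4
  refine ⟨hCL, ?_, ?_⟩
  · have h1 : Tendsto (fun z => L.weierstrassP (F (-1 / (11 * z)))) iI (𝓝 (L.weierstrassP C)) :=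
      (L.analyticOnNhd_weierstrassP C hCL).continuousAt.tendsto.comp hlim
    rw [zero_add] at hX
    refine tendsto_nhds_unique h1 (hX.congr' ?_)
    filter_upwards [iI_pos] with z hz
    exact (hw _ (W_pos hz)).2.symm
  · have h0 : ContinuousAt L.derivWeierstrassP C := by
      have := (L.analyticOnNhd_weierstrassP C hCL).deriv.continuousAt
      rwa [L.deriv_weierstrassP] at this
    have h1 : Tendsto (fun z => L.derivWeierstrassP (F (-1 / (11 * z)))) iI
        (𝓝 (L.derivWeierstrassP C)) := h0.tendsto.comp hlim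
    refine tendsto_nhds_unique h1 (k2.congr' ?_)
    filter_upwards [iI_pos] with z hz
    exact (wp_F' hcp L g2 g3 (W_pos hz)).symm

/-- five times the integral is the real period -/
theorem c_eq (hreal : S_REAL11) {Op Om : ℝ} (hOp : 0 < Op) (hOm : 0 < Om)
    (hL : ∀ w : ℂ, w ∈ L.lattice ↔ ∃ a b : ℤ, 2 ∣ a - b ∧ w = a * Op + b * Om * Complex.I)
    {C : ℂ} (hC : ∀ z : ℂ, 0 < z.im → F (-1 / (11 * z)) = C - F z) :
    ∃ c : ℝ, C = c ∧ 5 * c = 2 * Op := by
  obtain ⟨hCL, hv, hd⟩ := c_value hcp L g2 g3 hC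
  have hw := wp_F hcp L g2 g3
  have key : ∀ y : ℝ, 0 < y → C = ((gr (1 / (11 * y)) + gr y : ℝ) : ℂ) := by
    intro y hy
    have h1 := hC (y * Complex.I) (by simpa using hy)
    rw [W_I hy, F_I hy, F_I (by positivity)] at h1
    push_cast
    linear_combination (-1 : ℂ) * h1
  set c : ℝ := gr (1 / (11 * 1)) + gr 1 with hc
  have hCc : C = c := key 1 one_pos
  have key' : ∀ y : ℝ, 0 < y → c = gr (1 / (11 * y)) + gr y := by
    intro y hy
    have := key y hy
    rw [hCc] at this
    exact_mod_cast this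
  have hcpos : 0 < c := by
    have h1 := gr_pos (y := 1) one_pos
    have h2 := gr_pos (y := 1 / (11 * 1)) (by norm_num)
    linarith
  have hlat : ((2 * Op : ℝ) : ℂ) ∈ L.lattice := by
    rw [hL]
    refine ⟨2, 0, by norm_num, ?_⟩
    push_cast
    ring
  have hlt : c < 2 * Op := by
    by_contra hge
    push Not at hge
    have hne : c ≠ 2 * Op := by
      intro h
      apply hCL
      rw [hCc, h]
      exact hlat
    have hgt : 2 * Op < c := lt_of_le_of_ne hge (Ne.symm hne)
    -- a point where `gr` is large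
    obtain ⟨T, hT⟩ := (gr_inf.eventually (eventually_lt_nhds (show (0 : ℝ) < min (2 * Op) (c - 2 * Op)
      from lt_min (by linarith) (by linarith)))).exists_forall_of_atTop
    set T' := max T 1 with hT'
    have hT1 : 1 ≤ T' := le_max_right _ _
    have hT0 : 0 < T' := by linarith
    have h1 := hT T' (le_max_left _ _)
    have h2 : gr T' < 2 * Op := h1.trans_le (min_le_left _ _)
    have h3 : gr T' < c - 2 * Op := h1.trans_le (min_le_right _ _)
    have h4 := key' T' hT0
    have h5 : 2 * Op < gr (1 / (11 * T')) := by linarith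
    have h6 : 0 < 1 / (11 * T') := by positivity
    have h7 : 1 / (11 * T') ≤ T' := by
      rw [div_le_iff₀ (by positivity)]
      nlinarith
    have hcont : ContinuousOn gr (Icc (1 / (11 * T')) T') := gr_cont.mono fun y hy =>
      lt_of_lt_of_le h6 hy.1
    have h8 := intermediate_value_Icc' h7 hcont
    obtain ⟨y, hy, hy2⟩ := h8 ⟨h2.le, h5.le⟩
    have hy0 : 0 < y := lt_of_lt_of_le h6 hy.1
    have h9 := (hw (y * Complex.I) (by simpa using hy0)).1
    rw [F_I hy0, hy2] at h9
    exact h9 hlat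
  refine ⟨c, hCc, ?_⟩
  refine hreal L Op Om hOp hOm g2 g3 hL c hcpos hlt (by rw [← hCc]; exact hv)
    ⟨-121, by norm_num, ?_⟩
  rw [← hCc, hd]
  push_cast
  ring

end value

end Pool.Agent.Y702.M
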